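import Pool.Graph.R_pool_sql_team_seeded_3997aac3.Q92.AR.All

/-! # Equivariant homomorphisms from a lattice -/

set_option autoImplicit false
set_option linter.unusedSectionVars false
set_option linter.deprecated false

namespace Pool.Agent.H515.EQ

open Pool.Agent.Q92.AR

section
variable {H L A B : Type} [Group H] [Fintype H] [AddCommGroup L] [DistribMulAction H L]
  [AddCommGroup A] [AddCommGroup B]

/-- the equivariant homomorphisms -/
def Eqv (L : Type) [AddCommGroup L] [DistribMulAction H L] (t : H →* AddMonoid.End A) :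
    AddSubgroup (L →+ A) where
  carrier := {φ | ∀ (h : H) (x : L), φ (h • x) = t h (φ x)}
  add_mem' {a b} ha hb h x := by
    change a (h • x) + b (h • x) = t h (a x + b x)
    rw [ha, hb, map_add]
  zero_mem' h x := by
    change (0 : A) = t h 0
    rw [map_zero]
  neg_mem' {a} ha h x := by
    change - a (h • x) = t h (- a x)
    rw [ha, map_neg]

theorem mem_Eqv {t : H →* AddMonoid.End A} {φ : L →+ A} :
    φ ∈ Eqv L t ↔ ∀ (h : H) (x : L), φ (h • x) = t h (φ x) := Iff.rfl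

/-- the sum over the group -/
def avg (t : H →* AddMonoid.End A) (φ : L →+ A) : L →+ A :=
  ∑ h : H, (t h : A →+ A).comp (φ.comp (DistribMulAction.toAddMonoidHom L h⁻¹))

theorem avg_apply (t : H →* AddMonoid.End A) (φ : L →+ A) (x : L) :
    avg t φ x = ∑ h : H, t h (φ (h⁻¹ • x)) := by
  unfold avg
  rw [AddMonoidHom.finsetSum_apply]
  rfl

theorem avg_mem (t : H →* AddMonoid.End A) (φ : L →+ A) : avg t φ ∈ Eqv L t := by
  intro g x
  rw [avg_apply, avg_apply, map_sum]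
  refine (Fintype.sum_equiv (Equiv.mulLeft g) _ _ fun h => ?_).symm
  change t g (t h (φ (h⁻¹ • x))) = t (g * h) (φ ((g * h)⁻¹ • g • x))
  rw [map_mul, smul_smul, mul_inv_rev, inv_mul_cancel_right]
  rfl

theorem avg_of_mem {t : H →* AddMonoid.End A} {φ : L →+ A} (hφ : φ ∈ Eqv L t) :
    avg t φ = Fintype.card H • φ := by
  ext x
  rw [avg_apply]
  have h1 : ∀ h : H, t h (φ (h⁻¹ • x)) = φ x := by
    intro h
    rw [← hφ h, smul_inv_smul]
  rw [Finset.sum_congr rfl fun h _ => h1 h, Finset.sum_const, Finset.card_univ]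
  rfl

theorem comp_avg {t : H →* AddMonoid.End A} {t' : H →* AddMonoid.End B} (σ : A →+ B)
    (hσ : ∀ h a, σ (t h a) = t' h (σ a)) (φ : L →+ A) :
    σ.comp (avg t φ) = avg t' (σ.comp φ) := by
  ext x
  rw [AddMonoidHom.comp_apply, avg_apply, avg_apply, map_sum]
  exact Finset.sum_congr rfl fun h _ => hσ h _

theorem comp_mem {t : H →* AddMonoid.End A} {t' : H →* AddMonoid.End B} (σ : A →+ B)
    (hσ : ∀ h a, σ (t h a) = t' h (σ a)) {φ : L →+ A} (hφ : φ ∈ Eqv L t) :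
    σ.comp φ ∈ Eqv L t' := by
  intro h x
  rw [AddMonoidHom.comp_apply, hφ, hσ]
  rfl

/-- composition with an equivariant homomorphism -/
def pcc {t : H →* AddMonoid.End A} {t' : H →* AddMonoid.End B} (σ : A →+ B)
    (hσ : ∀ h a, σ (t h a) = t' h (σ a)) : Eqv L t →+ Eqv L t' where
  toFun φ := ⟨σ.comp φ.1, comp_mem σ hσ φ.2⟩
  map_zero' := by
    apply Subtype.ext
    ext x
    change σ 0 = 0
    rw [map_zero]
  map_add' φ ψ := by
    apply Subtype.ext
    ext x
    change σ (φ.1 x + ψ.1 x) = σ (φ.1 x) + σ (ψ.1 x)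
    rw [map_add]

/-- composition with an equivariant endomorphism -/
def pc {t : H →* AddMonoid.End A} (σ : AddMonoid.End A) (hσ : ∀ h a, σ (t h a) = t h (σ a)) :
    AddMonoid.End (Eqv L t) := pcc (σ : A →+ A) hσ

theorem pc_apply {t : H →* AddMonoid.End A} (σ : AddMonoid.End A)
    (hσ : ∀ h a, σ (t h a) = t h (σ a)) (φ : Eqv L t) (x : L) :
    ((pc σ hσ φ : Eqv L t) : L →+ A) x = σ ((φ : L →+ A) x) := rfl

theorem pc_pow {t : H →* AddMonoid.End A} (σ : AddMonoid.End A)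
    (hσ : ∀ h a, σ (t h a) = t h (σ a)) (i : ℕ) (φ : Eqv L t) (x : L) :
    (((pc σ hσ ^ i) φ : Eqv L t) : L →+ A) x = (σ ^ i) ((φ : L →+ A) x) := by
  induction i generalizing φ with
  | zero => rfl
  | succ i ih =>
    rw [pow_succ, pow_succ]
    change (((pc σ hσ ^ i) (pc σ hσ φ) : Eqv L t) : L →+ A) x = (σ ^ i) (σ ((φ : L →+ A) x))
    rw [ih]
    rfl

theorem pc_tr {t : H →* AddMonoid.End A} (σ : AddMonoid.End A)
    (hσ : ∀ h a, σ (t h a) = t h (σ a)) (n : ℕ) (φ : Eqv L t) (x : L) :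
    ((tr (pc σ hσ) n φ : Eqv L t) : L →+ A) x = tr σ n ((φ : L →+ A) x) := by
  rw [tr_apply, tr_apply, AddSubgroup.val_finsetSum, AddMonoidHom.finsetSum_apply]
  exact Finset.sum_congr rfl fun i _ => pc_pow σ hσ i φ x

theorem pc_df {t : H →* AddMonoid.End A} (σ : AddMonoid.End A)
    (hσ : ∀ h a, σ (t h a) = t h (σ a)) (φ : Eqv L t) (x : L) :
    ((df (pc σ hσ) φ : Eqv L t) : L →+ A) x = df σ ((φ : L →+ A) x) := rfl

/-- lifting of homomorphisms from a free group -/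
theorem lift [Module.Free ℤ L] (g : B →+ A) (φ : L →+ A) (h : ∀ x, φ x ∈ g.range) :
    ∃ ψ : L →+ B, g.comp ψ = φ := by
  let φ' : L →ₗ[ℤ] g.range := (φ.codRestrict g.range h).toIntLinearMap
  let g' : B →ₗ[ℤ] g.range := g.rangeRestrict.toIntLinearMap
  obtain ⟨ψ, hψ⟩ := Module.projective_lifting_property g' φ' g.rangeRestrict_surjective
  refine ⟨ψ.toAddMonoidHom, ?_⟩
  ext x
  have h1 : g' (ψ x) = φ' x := by
    rw [← hψ]
    rfl
  exact congrArg Subtype.val h1

theorem smul_mem_df {M : Type} [AddCommGroup M] (σ : AddMonoid.End M) (n : ℕ) (a : M)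
    (ha : tr σ n a = 0) : n • a ∈ (df σ).range := by
  have h1 : ∀ i : ℕ, (σ ^ i) a - a ∈ (df σ).range := by
    intro i
    induction i with
    | zero =>
      change a - a ∈ _
      rw [sub_self]
      exact zero_mem _
    | succ i ih =>
      have h2 : (σ ^ (i + 1)) a - a = df σ ((σ ^ i) a) + ((σ ^ i) a - a) := by
        rw [df_apply, pow_succ']
        change σ ((σ ^ i) a) - a = _
        abel
      rw [h2]
      exact add_mem ⟨_, rfl⟩ ih
  have h3 : n • a = - ∑ i ∈ Finset.range n, ((σ ^ i) a - a) := by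
    rw [Finset.sum_sub_distrib, ← tr_apply, ha, Finset.sum_const, Finset.card_range]
    abel
  rw [h3]
  exact neg_mem (sum_mem fun i _ => h1 i)

theorem smul_mem_tr {M : Type} [AddCommGroup M] (σ : AddMonoid.End M) (n : ℕ) (a : M)
    (ha : df σ a = 0) : n • a ∈ (tr σ n).range := by
  refine ⟨a, ?_⟩
  have h1 : ∀ i : ℕ, (σ ^ i) a = a := by
    intro i
    induction i with
    | zero => rfl
    | succ i ih =>
      rw [pow_succ']
      change σ ((σ ^ i) a) = a
      rw [ih]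
      exact sub_eq_zero.1 ha
  rw [tr_apply, Finset.sum_congr rfl fun i _ => h1 i, Finset.sum_const, Finset.card_range]

theorem mem_of_coprime {M : Type} [AddCommGroup M] {S : AddSubgroup M} {a b : ℕ}
    (hab : a.Coprime b) {x : M} (ha : a • x ∈ S) (hb : b • x ∈ S) : x ∈ S := by
  have h1 : x = (Nat.gcdA a b) • (a • x) + (Nat.gcdB a b) • (b • x) := by
    have h2 := Nat.gcd_eq_gcd_ab a b
    rw [hab.gcd_eq_one] at h2
    rw [← natCast_zsmul, ← natCast_zsmul, smul_smul, smul_smul, ← add_smul, mul_comm _ (a : ℤ),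
      mul_comm _ (b : ℤ), ← h2]
    simp
  rw [h1]
  exact add_mem (zsmul_mem ha _) (zsmul_mem hb _)

theorem comm_pow (σ : AddMonoid.End A) (t : H →* AddMonoid.End A)
    (hσ : ∀ h a, σ (t h a) = t h (σ a)) (i : ℕ) (h : H) (a : A) :
    (σ ^ i) (t h a) = t h ((σ ^ i) a) := by
  induction i generalizing a with
  | zero => rfl
  | succ i ih =>
    rw [pow_succ]
    change (σ ^ i) (σ (t h a)) = t h ((σ ^ i) (σ a))
    rw [hσ, ih]

/-- no `Ĥ⁰` -/
theorem av0 [Module.Free ℤ L] {t : H →* AddMonoid.End A} (σ : AddMonoid.End A)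
    (hσ : ∀ h a, σ (t h a) = t h (σ a)) (n : ℕ) (hn : (Fintype.card H).Coprime n)
    (h0 : (df σ).ker ≤ (tr σ n).range) :
    (df (pc (L := L) σ hσ)).ker ≤ (tr (pc (L := L) σ hσ) n).range := by
  intro φ hφ
  have hφ' : df (pc (L := L) σ hσ) φ = 0 := hφ
  obtain ⟨ψ, hψ⟩ := lift (tr σ n) φ.1 fun x => h0 (by
    have h1 := congrArg (fun z : Eqv L t => (z : L →+ A) x) hφ'
    exact h1)
  have ht : ∀ h a, tr σ n (t h a) = t h (tr σ n a) := by
    intro h a
    rw [tr_apply, tr_apply, map_sum]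
    exact Finset.sum_congr rfl fun i _ => comm_pow σ t hσ i h a
  refine mem_of_coprime hn ?_ (smul_mem_tr _ n φ hφ')
  refine ⟨⟨avg t ψ, avg_mem t ψ⟩, ?_⟩
  apply Subtype.ext
  ext x
  rw [pc_tr]
  have h2 := comp_avg (tr σ n) ht ψ
  rw [hψ, avg_of_mem φ.2] at h2
  exact DFunLike.congr_fun h2 x

/-- no `H¹` -/
theorem av1 [Module.Free ℤ L] {t : H →* AddMonoid.End A} (σ : AddMonoid.End A)
    (hσ : ∀ h a, σ (t h a) = t h (σ a)) (n : ℕ) (hn : (Fintype.card H).Coprime n)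
    (h0 : (tr σ n).ker ≤ (df σ).range) :
    (tr (pc (L := L) σ hσ) n).ker ≤ (df (pc (L := L) σ hσ)).range := by
  intro φ hφ
  have hφ' : tr (pc (L := L) σ hσ) n φ = 0 := hφ
  obtain ⟨ψ, hψ⟩ := lift (df σ) φ.1 fun x => h0 (by
    have h1 := congrArg (fun z : Eqv L t => (z : L →+ A) x) hφ'
    change ((tr (pc σ hσ) n φ : Eqv L t) : L →+ A) x = 0 at h1
    rw [pc_tr] at h1
    exact h1)
  have ht : ∀ h a, df σ (t h a) = t h (df σ a) := by
    intro h a
    rw [df_apply, df_apply, map_sub, hσ]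
  refine mem_of_coprime hn ?_ (smul_mem_df _ n φ hφ')
  refine ⟨⟨avg t ψ, avg_mem t ψ⟩, ?_⟩
  apply Subtype.ext
  ext x
  rw [pc_df]
  have h2 := comp_avg (df σ) ht ψ
  rw [hψ, avg_of_mem φ.2] at h2
  exact DFunLike.congr_fun h2 x


/-- an abelian group of finite exponent which is finitely generated is finite -/
theorem fin_of_fg {M : Type} [AddCommGroup M] [Module.Finite ℤ M] (S : AddSubgroup M) (k : ℕ)
    (hk : 0 < k) (h : ∀ x : M, k • x ∈ S) : Finite (M ⧸ S) := by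
  let S' : Submodule ℤ M := AddSubgroup.toIntSubmodule S
  have h1 : Module.IsTorsion ℤ (M ⧸ S') := by
    intro x
    obtain ⟨y, rfl⟩ := Submodule.mkQ_surjective S' x
    refine ⟨⟨(k : ℤ), mem_nonZeroDivisors_of_ne_zero (by exact_mod_cast hk.ne')⟩, ?_⟩
    change (k : ℤ) • S'.mkQ y = 0
    rw [← map_zsmul, Submodule.mkQ_apply, Submodule.Quotient.mk_eq_zero, natCast_zsmul]
    exact h y
  have h2 : Finite (M ⧸ S') := Module.finite_of_fg_torsion _ h1
  exact h2

/-- **The units**: if `f : X → U` is equivariant, has finite cokernel and a kernel without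
equivariant homomorphisms, and `X` is cohomologically trivial, then the Herbrand quotient of the
equivariant homomorphisms to `U` is one. -/
theorem herbrand [Module.Free ℤ L] [Module.Finite ℤ L] {X U : Type} [AddCommGroup X]
    [AddCommGroup U] [Module.Finite ℤ U] {tX : H →* AddMonoid.End X} {tU : H →* AddMonoid.End U}
    (β : AddMonoid.End X) (hβ : ∀ h a, β (tX h a) = tX h (β a))
    (τ : AddMonoid.End U) (hτ : ∀ h a, τ (tU h a) = tU h (τ a)) (n : ℕ) (hn0 : 0 < n)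
    (hβn : β ^ n = 1) (hτn : τ ^ n = 1)
    (hn : (Fintype.card H).Coprime n) (f : X →+ U) (hfH : ∀ h a, f (tX h a) = tU h (f a))
    (hfβ : ∀ a, f (β a) = τ (f a)) (hfin : Finite (U ⧸ f.range))
    (hker : ∀ φ : L →+ X, φ ∈ Eqv L tX → (∀ x, f (φ x) = 0) → φ = 0)
    (h0 : (df β).ker ≤ (tr β n).range) (h1 : (tr β n).ker ≤ (df β).range)
    (hU : (tr (pc (L := L) τ hτ) n).ker ≤ (df (pc (L := L) τ hτ)).range) :
    (df (pc (L := L) τ hτ)).ker ≤ (tr (pc (L := L) τ hτ) n).range := by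
  classical
  have a0 := av0 (L := L) β hβ n hn h0
  have a1 := av1 (L := L) β hβ n hn h1
  let i : Eqv L tX →+ Eqv L tU := pcc f hfH
  have hi : Function.Injective i := by
    rw [injective_iff_map_eq_zero]
    intro φ hφ
    apply Subtype.ext
    refine hker φ.1 φ.2 fun x => ?_
    exact DFunLike.congr_fun (congrArg Subtype.val hφ) x
  have hLU : Module.Finite ℤ (L →+ U) :=
    Module.Finite.equiv (addMonoidHomLequivInt ℤ).symm
  have hM : Module.Finite ℤ (Eqv L tU) := by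
    have h : Module.Finite ℤ (AddSubgroup.toIntSubmodule (Eqv L tU)) := inferInstance
    exact h
  obtain ⟨k, hk0, hk⟩ : ∃ k : ℕ, 0 < k ∧ ∀ u : U, k • u ∈ f.range := by
    refine ⟨Nat.card (U ⧸ f.range), Nat.card_pos, fun u => ?_⟩
    rw [← QuotientAddGroup.eq_zero_iff, QuotientAddGroup.mk_nsmul]
    exact card_nsmul_eq_zero'
  have hC : Finite (Eqv L tU ⧸ i.range) := by
    refine fin_of_fg i.range (Fintype.card H * k) (Nat.mul_pos Fintype.card_pos hk0) fun φ => ?_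
    obtain ⟨ψ, hψ⟩ := lift f (k • φ.1) fun x => hk _
    refine ⟨⟨avg tX ψ, avg_mem tX ψ⟩, ?_⟩
    apply Subtype.ext
    change f.comp (avg tX ψ) = _
    rw [comp_avg (t' := tU) f hfH, hψ, avg_of_mem (nsmul_mem φ.2 k), mul_nsmul']
    rfl
  have hiαβ : ∀ a, i (pc β hβ a) = pc τ hτ (i a) := by
    intro a
    apply Subtype.ext
    ext x
    exact hfβ (a.1 x)
  have hαn : (pc (L := L) β hβ) ^ n = 1 := by
    refine DFunLike.ext _ _ fun a => Subtype.ext (DFunLike.ext _ _ fun x => ?_)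
    rw [pc_pow, hβn]
    rfl
  have hγn : (pc (L := L) τ hτ) ^ n = 1 := by
    refine DFunLike.ext _ _ fun a => Subtype.ext (DFunLike.ext _ _ fun x => ?_)
    rw [pc_pow, hτn]
    rfl
  have hmem : i.range ≤ i.range.comap (pc (L := L) τ hτ : Eqv L tU →+ Eqv L tU) := by
    rintro _ ⟨a, rfl⟩
    exact ⟨pc β hβ a, hiαβ a⟩
  let δ : AddMonoid.End (Eqv L tU ⧸ i.range) :=
    QuotientAddGroup.map i.range i.range (pc (L := L) τ hτ : Eqv L tU →+ Eqv L tU) hmem
  have hδ : ∀ u : Eqv L tU, (QuotientAddGroup.mk' i.range) (pc (L := L) τ hτ u) =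
      δ ((QuotientAddGroup.mk' i.range) u) := fun u => rfl
  have hδn : δ ^ n = 1 :=
    Pool.Agent.Q95.AR.pow_eq_one_of_surj (pc (L := L) τ hτ) δ (QuotientAddGroup.mk' i.range)
      (QuotientAddGroup.mk'_surjective i.range) hδ n hγn
  obtain ⟨k1, k2⟩ := Pool.Agent.Q150.AR.hFin (Eqv L tU ⧸ i.range) δ n hn0 hδn
  obtain ⟨g1, -, -, g4⟩ := Pool.Agent.Q150.AR.hex (Eqv L tX) (Eqv L tU) (Eqv L tU ⧸ i.range)
    (pc β hβ) (pc τ hτ) δ i (QuotientAddGroup.mk' i.range) n hn0 hαn hγn hδn hi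
    (QuotientAddGroup.mk'_surjective i.range) (by rw [QuotientAddGroup.ker_mk']) hiαβ hδ
  have b0 : q0 (pc (L := L) β hβ) n = 1 := AddSubgroup.relIndex_eq_one.2 a0
  have b1 : q1 (pc (L := L) β hβ) n = 1 := AddSubgroup.relIndex_eq_one.2 a1
  have c1 : q1 (pc (L := L) τ hτ) n = 1 := AddSubgroup.relIndex_eq_one.2 hU
  rw [b0, b1, c1] at g4
  rw [b0, b1] at g1
  obtain ⟨d0, -⟩ := g1 ⟨one_ne_zero, one_ne_zero, k2, k1 ▸ k2⟩
  have d2 := g4 ⟨one_ne_zero, one_ne_zero, d0, one_ne_zero, k2, k1 ▸ k2⟩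
  rw [← k1, mul_one, mul_one, one_mul] at d2
  have d3 : q0 (pc (L := L) τ hτ) n = 1 :=
    Nat.eq_of_mul_eq_mul_right (Nat.pos_of_ne_zero k2) (by rw [d2, one_mul])
  exact AddSubgroup.relIndex_eq_one.1 d3

end
end Pool.Agent.H515.EQ
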