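import Pool.Agent.H515.EQ.Lat
import Pool.Agent.H515.Inf

/-! # Vanishing in the layers -/

set_option autoImplicit false
set_option linter.unusedSectionVars false
set_option linter.deprecated false

namespace Pool.Agent.H515.EQ

open NumberField IsDedekindDomain Pool.Agent.Q5.BR Pool.Agent.Q92.AR Pool.Agent.Q106.AR
open Pool.Agent.TeamU (act mem_act)
open Pool.Agent.Q182.AR (upA)
open Pool.Agent.H515.CH (UU PP cn ri DC sb sb_mk sb_le sb_finrank eqv cls dvI_map cls_dvI mr map_ne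
  inc adj_top sub_gal sub_fin nf cyc cyc_ext cyc_fin cyc_ab Xt IsLayer cn_injective cn_sD'
  layer_facts realRam_layer ri_eq_one res_comp inj_comp under_act' mem_under cn_prinHom)

theorem exists_above_p {p : ℕ} (hp : p.Prime) (F : Type) [Field F] [NumberField F] :
    ∃ P : HeightOneSpectrum (𝓞 F), (p : 𝓞 F) ∈ P.asIdeal := by
  have hpz : Prime (p : ℤ) := Nat.prime_iff_prime_int.1 hp
  have hm : (Ideal.span {(p : ℤ)}).IsMaximal :=
    PrincipalIdealRing.isMaximal_of_irreducible hpz.irreducible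
  obtain ⟨P, hP, hPw⟩ := Ideal.exists_ideal_over_maximal_of_isIntegral (S := 𝓞 F)
    (Ideal.span {(p : ℤ)}) (by
      rw [(RingHom.injective_iff_ker_eq_bot _).1 (FaithfulSMul.algebraMap_injective ℤ (𝓞 F))]
      exact bot_le)
  have hpP : (p : 𝓞 F) ∈ P := by
    have h1 : (p : ℤ) ∈ P.comap (algebraMap ℤ (𝓞 F)) := by
      rw [hPw]
      exact Ideal.mem_span_singleton_self _
    rw [Ideal.mem_comap] at h1
    simpa using h1
  refine ⟨⟨P, hP.isPrime, ?_⟩, hpP⟩
  rintro rfl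
  rw [Ideal.mem_bot] at hpP
  exact hp.ne_zero (by exact_mod_cast hpP)

theorem act_pow_eq {F : Type} [Field F] [NumberField F] {B : Type} [Field B] [NumberField B]
    [Algebra F B] {s : B ≃ₐ[ℚ] B} {g : B ≃ₐ[F] B} (hsg : ∀ x, g (s x) = s (g x))
    {w : HeightOneSpectrum (𝓞 B)} (h : act g w = act s w) (m : ℕ) :
    act (g ^ m) w = act (s ^ m) w := by
  induction m with
  | zero => rw [pow_zero, pow_zero, Pool.Agent.TeamU.act_one, Pool.Agent.TeamU.act_one]
  | succ m ih =>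
    have h1 : ∀ x, (g ^ m) (s x) = s ((g ^ m) x) := by
      intro x
      clear ih
      induction m generalizing x with
      | zero => rfl
      | succ m ih =>
        rw [pow_succ]
        change (g ^ m) (g (s x)) = s ((g ^ m) (g x))
        rw [hsg, ih]
    rw [pow_succ (a := g), pow_succ' (a := s), Pool.Agent.TeamU.act_mul, h,
      Pool.Agent.TeamU.act_mul, ← ih, act_comm h1]

/-- an automorphism of order prime to `p` which fixes the prime below fixes the prime -/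
theorem act_fix {F : Type} [Field F] [NumberField F] {B : Type} [Field B] [NumberField B]
    [Algebra F B] [IsGalois F B] {p m : ℕ} (hm : Module.finrank F B = p ^ m) {s : B ≃ₐ[ℚ] B}
    (hs : ∀ (g : B ≃ₐ[F] B) x, g (s x) = s (g x)) {o : ℕ} (ho : s ^ o = 1) (hop : o.Coprime p)
    {w : HeightOneSpectrum (𝓞 B)} (hw : (act s w).under (𝓞 F) = w.under (𝓞 F)) :
    act s w = w := by
  obtain ⟨g, hg⟩ := Pool.Agent.TeamU.exists_act (k := F) (P := w) (Q := act s w)
    (v := w.under (𝓞 F)) rfl (congrArg HeightOneSpectrum.asIdeal hw)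
  have h1 := act_pow_eq (hs g) hg o
  rw [ho, Pool.Agent.TeamU.act_one] at h1
  have h2 : g ^ (p ^ m) = 1 := by
    have h3 := pow_card_eq_one' (G := B ≃ₐ[F] B) (x := g)
    rw [IsGalois.card_aut_eq_finrank, hm] at h3
    exact h3
  have h4 : g ∈ Subgroup.zpowers (g ^ o) := by
    have h5 : (orderOf g).Coprime o :=
      Nat.Coprime.coprime_dvd_left (orderOf_dvd_of_pow_eq_one h2)
        (Nat.Coprime.pow_left _ hop.symm)
    obtain ⟨j, hj⟩ := exists_pow_eq_self_of_coprime h5.symm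
    exact ⟨j, by simpa using hj⟩
  have hall : ∀ j : ℕ, act ((g ^ o) ^ j) w = w := by
    intro j
    induction j with
    | zero => rw [pow_zero, Pool.Agent.TeamU.act_one]
    | succ j ih => rw [pow_succ, Pool.Agent.TeamU.act_mul, h1, ih]
  obtain ⟨j, hj⟩ := (isOfFinOrder_of_finite (g ^ o)).mem_powers_iff_mem_zpowers.2 h4
  have hj' : (g ^ o) ^ j = g := hj
  rw [← hg, ← hj', hall]

theorem clsHyp {p : ℕ} (hp : p.Prime) {F B : Type} [Field F] [NumberField F] [Field B]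
    [NumberField B] [Algebra F B] {H : Type} [Group H] [Finite H] (ρ : H →* (F ≃ₐ[ℚ] F))
    {L : Type} [AddCommGroup L] [Module.Free ℤ L] [DistribMulAction H L] (s : H →* (B ≃ₐ[ℚ] B))
    (hs : ∀ (h : H) (x : F), s h (algebraMap F B x) = algebraMap F B (ρ h x))
    (hb : BaseHyp p ρ L) : ∃ M : ℕ, M.Coprime p ∧ ClsHyp s F L M := by
  classical
  have hft : Fintype H := Fintype.ofFinite H
  obtain ⟨v, M, hM, hv⟩ := Nat.exists_eq_pow_mul_and_not_dvd (classNumber_pos F).ne' p hp.ne_one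
  refine ⟨M, ((Nat.Prime.coprime_iff_not_dvd hp).2 hM).symm, ?_⟩
  intro φ hφ hr x
  obtain ⟨φ0, hφ0⟩ := lift (cn F B) φ hr
  have h0 : ∀ x, cn F B (φ0 x) = φ x := fun x => DFunLike.congr_fun hφ0 x
  have heq : ∀ (h : H) (x : L), φ0 (h • x) = sD (ρ h) (φ0 x) := by
    intro h x
    apply cn_injective (E := B)
    have hx : Xt (k := ℚ) (k' := F) (F := ℚ) (F' := B) (s h) (ρ h) := hs h
    rw [h0, hφ h x, tD_apply, ← h0, cn_sD' hx]
  let c : L →+ DC F := M • (QuotientAddGroup.mk' (PP F)).comp φ0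
  have hc : ∀ x, c x = M • (QuotientAddGroup.mk (φ0 x) : DC F) := fun x => rfl
  have h1 := hb c (fun h x => by
    rw [hc, hc, heq, map_nsmul, sb_mk]) x ⟨v, by
    rw [hc, smul_smul, ← hv, ← Pool.Agent.H515.CH.card_DC]
    exact card_nsmul_eq_zero'⟩
  rw [hc, ← QuotientAddGroup.mk_nsmul, QuotientAddGroup.eq_zero_iff] at h1
  obtain ⟨d, hd⟩ := h1
  refine ⟨d, ?_⟩
  rw [cn_prinHom, hd, map_nsmul, h0]

theorem nor_alg (K : IntermediateField ℚ ℂ) : Normal ℚ K ↔ @Normal ℚ K _ _ K.algebra' := by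
  rw [show (DivisionRing.toRatAlgebra : Algebra ℚ K) = K.algebra' from Subsingleton.elim _ _]

theorem gal_sup {F E : IntermediateField ℚ ℂ} [NumberField F] [NumberField E]
    [NumberField ↥(F ⊔ E)] (hF : IsGalois ℚ F) (hE : IsGalois ℚ E) : IsGalois ℚ ↥(F ⊔ E) := by
  have h1 : @Normal ℚ F _ _ F.algebra' := (nor_alg F).1 inferInstance
  have h2 : @Normal ℚ E _ _ E.algebra' := (nor_alg E).1 inferInstance
  have h3 : @Normal ℚ ↥(F ⊔ E) _ _ (F ⊔ E).algebra' := IntermediateField.normal_sup ℚ ℂ F E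
  have h4 : Normal ℚ ↥(F ⊔ E) := (nor_alg _).2 h3
  exact ⟨⟩

/-- **Vanishing in the layers.** -/
theorem layer_vanish {p n : ℕ} (hp : p.Prime) (hp2 : p ≠ 2) {F E : IntermediateField ℚ ℂ}
    [NumberField F] (hFg : IsGalois ℚ F) (hE : IsLayer p n E) [NumberField ↥(F ⊔ E)]
    {H : Type} [Group H] [Finite H] (ρ : H →* (F ≃ₐ[ℚ] F)) {L : Type} [AddCommGroup L]
    [Module.Free ℤ L] [Module.Finite ℤ L]
    [DistribMulAction H L] (hH : (Nat.card H).Coprime p) (hdec : DecHyp p ρ L)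
    (hb : BaseHyp p ρ L) : ∃ s : H →* (↥(F ⊔ E) ≃ₐ[ℚ] ↥(F ⊔ E)),
      (∀ (h : H) (x : F), s h (up' le_sup_left x) = up' le_sup_left (ρ h x)) ∧
      (∀ (h : H) (x : E), s h (up' le_sup_right x) = up' le_sup_right x) ∧
      ∀ c : L →+ DC ↥(F ⊔ E), (∀ (h : H) (x : L), c (h • x) = sb (s h) (c x)) →
        ∀ x, (∃ k, p ^ k • c x = 0) → c x = 0 := by
  classical
  obtain ⟨hE1, hE2, hE3⟩ := hE
  have hfp : Fact p.Prime := ⟨hp⟩
  have hN : p ^ (n + 2) ≠ 0 := pow_ne_zero _ hp.ne_zero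
  have hEg : IsGalois ℚ E := sub_gal hN hE1
  have hEf : FiniteDimensional ℚ E := sub_fin hN hE1
  have hEn : NumberField E := nf hEf
  have hBg : IsGalois ℚ ↥(F ⊔ E) := gal_sup hFg hEg
  have a2 : F ≤ F ⊔ E := le_sup_left
  have a6 : E ≤ F ⊔ E := le_sup_right
  have hft : Fintype H := Fintype.ofFinite H
  have hHc : (Fintype.card H).Coprime p := by rw [← Nat.card_eq_fintype_card]; exact hH
  -- the lifts
  have hex : ∀ h : H, ∃ σ : ↥(F ⊔ E) ≃ₐ[ℚ] ↥(F ⊔ E),
      (∀ x : F, σ (up' a2 x) = up' a2 (ρ h x)) ∧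
      ∀ x : E, σ (up' a6 x) = up' a6 x := by
    intro h
    refine exists_lift a2 a6 (ρ h) ?_
    rw [hE2]
    apply Nat.Coprime.pow_right
    refine Nat.Coprime.coprime_dvd_left ?_ hH
    exact (orderOf_map_dvd ρ h).trans (orderOf_dvd_natCard h)
  choose t ht1 ht2 using hex
  let s : H →* (↥(F ⊔ E) ≃ₐ[ℚ] ↥(F ⊔ E)) := MonoidHom.mk' t fun a b => by
    refine ext_sup a2 a6 le_rfl _ _ (fun x => ?_) fun x => ?_
    · rw [ht1]
      change _ = t a (t b (up' a2 x))
      rw [ht1, ht1, map_mul]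
      rfl
    · rw [ht2]
      change _ = t a (t b (up' a6 x))
      rw [ht2, ht2]
  have hs1 : ∀ (h : H) (x : F), s h (up' a2 x) = up' a2 (ρ h x) := ht1
  have hs2 : ∀ (h : H) (x : E), s h (up' a6 x) = up' a6 x := ht2
  refine ⟨s, hs1, hs2, ?_⟩
  -- the extension
  let i2 := inc a2
  let i6 := inc a6
  obtain ⟨g1, g2, g3⟩ := layer_facts hN a2 a6 le_rfl hE1
  have hR := realRam_layer hN a2 a6 le_rfl hE1 hE3
  have htop : IntermediateField.adjoin F (Set.range (algebraMap E ↥(F ⊔ E))) = ⊤ :=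
    adj_top a2 a6 le_rfl
  rw [hE2, Nat.dvd_prime_pow hp] at g2
  obtain ⟨m, -, hm⟩ := g2
  have t1 : IsScalarTower ℚ F ↥(F ⊔ E) := IsScalarTower.of_algebraMap_eq fun x => rfl
  have t2 : IsScalarTower ℚ E ↥(F ⊔ E) := IsScalarTower.of_algebraMap_eq fun x => rfl
  -- cyclic
  have hcycE : IsCyclic (E ≃ₐ[ℚ] E) := cyc_gal hp hp2 (n + 2) hE1
  choose r hr using fun g : ↥(F ⊔ E) ≃ₐ[F] ↥(F ⊔ E) =>
    res_comp (k := ℚ) (k' := E) (F := F) (F' := ↥(F ⊔ E)) g
  have hrm : ∀ a b, r (a * b) = r a * r b := by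
    intro a b
    ext1 x
    apply (algebraMap E ↥(F ⊔ E)).injective
    rw [← hr (a * b) x]
    change a (b (algebraMap E ↥(F ⊔ E) x)) = algebraMap E ↥(F ⊔ E) (r a (r b x))
    rw [hr b x, hr a]
  have hinj : Function.Injective (MonoidHom.mk' r hrm) := by
    rw [injective_iff_map_eq_one]
    intro g hg
    apply inj_comp htop
    intro x
    have h2 : r g = 1 := hg
    rw [hr g x, h2]
    rfl
  have hcyc : IsCyclic (↥(F ⊔ E) ≃ₐ[F] ↥(F ⊔ E)) := isCyclic_of_injective _ hinj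
  obtain ⟨γ, hγ⟩ := hcyc
  -- commutation
  have hcom : ∀ (g : ↥(F ⊔ E) ≃ₐ[F] ↥(F ⊔ E)) (h : H) (x : ↥(F ⊔ E)), g (s h x) = s h (g x) := by
    intro g h x
    have h1 : (g.restrictScalars ℚ) * s h = s h * (g.restrictScalars ℚ) := by
      refine ext_sup a2 a6 le_rfl _ _ (fun x => ?_) fun x => ?_
      · change g (s h (up' a2 x)) = s h (g (up' a2 x))
        have h2 : ∀ y : F, g (up' a2 y) = up' a2 y := fun y => g.commutes y
        rw [hs1, h2, h2, hs1]
      · change g (s h (up' a6 x)) = s h (g (up' a6 x))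
        have h2 : g (up' a6 x) = up' a6 (r g x) := hr g x
        rw [hs2, h2, hs2]
    exact DFunLike.congr_fun h1 x
  have hs' : ∀ (h : H) (x : F), s h (algebraMap F ↥(F ⊔ E) x) =
      algebraMap F ↥(F ⊔ E) (ρ h x) := hs1
  obtain ⟨M, hM, hcl⟩ := clsHyp hp ρ s hs' hb
  obtain ⟨P0, hP0⟩ := exists_above_p hp F
  have hram : RamHyp s F L := by
    intro w hw l hl
    have hpw : (p : 𝓞 F) ∈ (w.under (𝓞 F)).asIdeal := by
      by_contra hcon
      apply hw
      refine ri_eq_one (g3 _ ?_) rfl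
      intro h2
      apply hcon
      rw [Nat.cast_pow] at h2
      exact (w.under (𝓞 F)).isPrime.mem_of_pow_mem _ h2
    refine func_zero hdec (w.under (𝓞 F)) hpw l fun h hh x => hl h ?_ x
    refine act_fix (F := F) hm (s := s h) (fun g x => hcom g h x) (o := Nat.card H) ?_ hH ?_
    · rw [← map_pow, pow_card_eq_one', map_one]
    · have hx : Xt (k := ℚ) (k' := F) (F := ℚ) (F' := ↥(F ⊔ E)) (s h) (ρ h) := hs' h
      rw [under_act' hx, hh]
  intro c hc x hx
  exact vanish s γ hγ (fun h x => hcom γ h x) hR hp hm hHc hM hcl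
    (fun l hl => func_zero hdec P0 hP0 l fun h _ x => hl h x) hram c hc x hx

end Pool.Agent.H515.EQ
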