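import Pool.Agent.H515.EQ.Asm
import Pool.Agent.H515.KV.Split
import Pool.Agent.H515.KV.Cheb

/-! # Vanishing in the layers: the class groups, densities -/

set_option autoImplicit false
set_option linter.unusedSectionVars false
set_option linter.deprecated false

namespace Pool.Agent.H515.EQ

open NumberField IsDedekindDomain Pool.Agent.Q5.BR Pool.Agent.Q92.AR Pool.Agent.Q106.AR
open Pool.Agent.TeamU (act mem_act)
open Pool.Agent.H515.CH (PP DC sb sb_mk eqv cls dvI_map cls_dvI mr map_ne map_act IsLayer FrobAt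
  mem_under rat_prime_unique)
open Pool.Agent.W401.Cheb Filter Topology

/-- `f : L → Cl(M)` is compatible with the automorphisms of `M` which are trivial on `E` and agree
with an element of `H` on `F` -/
def Compat {F : IntermediateField ℚ ℂ} {H : Type} [Group H] (ρ : H →* (F ≃+* F))
    (E M : IntermediateField ℚ ℂ) [NumberField M] (L : Type) [AddCommGroup L] [DistribMulAction H L]
    (f : L →+ Additive (ClassGroup (𝓞 M))) : Prop :=
  ∀ (h : H) (g : M →+* M), (∀ y : M, (y : ℂ) ∈ E → g y = y) →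
    (∀ (y : M) (z : F), (y : ℂ) = z → ((g y : M) : ℂ) = ((ρ h z : F) : ℂ)) →
    ∀ (x : L) (I J : nonZeroDivisors (Ideal (𝓞 M))),
      (J : Ideal (𝓞 M)) = Ideal.map (RingOfIntegers.mapRingHom g) I →
      Additive.ofMul (ClassGroup.mk0 I) = f x → Additive.ofMul (ClassGroup.mk0 J) = f (h • x)

/-- the `p`-part of the class group of `M` has no `L`-part -/
def NoPart (p : ℕ) {F : IntermediateField ℚ ℂ} {H : Type} [Group H] (ρ : H →* (F ≃+* F))
    (E M : IntermediateField ℚ ℂ) [NumberField M] (L : Type) [AddCommGroup L]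
    [DistribMulAction H L] : Prop :=
  ∀ f : L →+ Additive (ClassGroup (𝓞 M)), Compat ρ E M L f →
    ∀ x, (∃ k, p ^ k • f x = 0) → f x = 0

/-- the decomposition groups in `H` of the primes above `p` have no invariants in `L` -/
def NoInv (p : ℕ) {F : IntermediateField ℚ ℂ} [NumberField F] {H : Type} [Group H]
    (ρ : H →* (F ≃+* F)) (L : Type) [AddCommGroup L] [DistribMulAction H L] : Prop :=
  ∀ P : Ideal (𝓞 F), P.IsPrime → (p : 𝓞 F) ∈ P → ∀ x : L,
    (∀ h : H, Ideal.map (RingOfIntegers.mapRingHom (ρ h : F →+* F)) P = P →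
      h • x = x) → x = 0

theorem ofMul_mk0 {M : Type} [Field M] [NumberField M] (I : nonZeroDivisors (Ideal (𝓞 M))) :
    Additive.ofMul (ClassGroup.mk0 I) = eqv M (QuotientAddGroup.mk (dvI (I : Ideal (𝓞 M)))) := by
  rw [← cls_dvI]
  rfl

/-- an automorphism as an automorphism over `ℚ` -/
noncomputable def rat {F : Type} [Field F] [NumberField F] : (F ≃+* F) →* (F ≃ₐ[ℚ] F) where
  toFun g := AlgEquiv.ofRingEquiv (f := g) fun x => by
    rw [eq_ratCast, map_ratCast]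
  map_one' := rfl
  map_mul' _ _ := rfl

theorem rat_apply {F : Type} [Field F] [NumberField F] (g : F ≃+* F) (x : F) : rat g x = g x := rfl

theorem noInv_dec {p : ℕ} {F : IntermediateField ℚ ℂ} [NumberField F] {H : Type} [Group H]
    {ρ : H →* (F ≃+* F)} {L : Type} [AddCommGroup L] [DistribMulAction H L]
    (h : NoInv p ρ L) : DecHyp p (rat.comp ρ) L := by
  intro P hP x hx
  refine h P.asIdeal P.isPrime hP x fun g hg => hx g ?_
  apply HeightOneSpectrum.ext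
  rw [← map_act]
  exact hg

theorem noPart_base {p : ℕ} {F : IntermediateField ℚ ℂ} [NumberField F] {H : Type} [Group H]
    {ρ : H →* (F ≃+* F)} {L : Type} [AddCommGroup L] [DistribMulAction H L]
    {E : IntermediateField ℚ ℂ} (h : NoPart p ρ E F L) : BaseHyp p (rat.comp ρ) L := by
  intro c hc x hx
  have h1 := h ((eqv F).toAddMonoidHom.comp c) ?_ x ?_
  · exact (eqv F).injective (h1.trans (map_zero (eqv F)).symm)
  · intro g g' _ hg' y I J hJ hI
    have hgg : g' = (((rat.comp ρ) g : F ≃ₐ[ℚ] F) : F →+* F) := by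
      ext1 z
      exact Subtype.ext (hg' z z rfl)
    have hI0 : (I : Ideal (𝓞 F)) ≠ ⊥ := nonZeroDivisors.ne_zero I.2
    rw [ofMul_mk0, hJ, hgg, dvI_map _ _ hI0, ← sb_mk]
    rw [ofMul_mk0] at hI
    have hI' : (QuotientAddGroup.mk (dvI (I : Ideal (𝓞 F))) : DC F) = c y := (eqv F).injective hI
    rw [hI']
    change _ = eqv F (c (g • y))
    rw [hc]
  · obtain ⟨k, hk⟩ := hx
    refine ⟨k, ?_⟩
    change p ^ k • eqv F (c x) = 0
    rw [← map_nsmul, hk, map_zero]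

/-- **Vanishing in the layers.** -/
theorem noPart_layer {p n : ℕ} (hp : p.Prime) (hp2 : p ≠ 2) {F E : IntermediateField ℚ ℂ}
    [NumberField F] (hFg : IsGalois ℚ F) (hE : IsLayer p n E) [NumberField ↥(F ⊔ E)]
    {H : Type} [Group H] [Finite H] (ρ : H →* (F ≃+* F)) {L : Type} [AddCommGroup L]
    [Module.Free ℤ L] [Module.Finite ℤ L]
    [DistribMulAction H L] (hH : (Nat.card H).Coprime p) (hdec : DecHyp p (rat.comp ρ) L)
    (hb : BaseHyp p (rat.comp ρ) L) : NoPart p ρ E (F ⊔ E) L := by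
  obtain ⟨s, hs1, hs2, hv⟩ := layer_vanish hp hp2 hFg hE (rat.comp ρ) hH hdec hb
  intro f hf x hx
  have h1 := hv ((eqv ↥(F ⊔ E)).symm.toAddMonoidHom.comp f) ?_ x ?_
  · have h2 : (eqv ↥(F ⊔ E)).symm (f x) = 0 := h1
    exact (eqv ↥(F ⊔ E)).symm.injective (h2.trans (map_zero _).symm)
  · intro h y
    change (eqv ↥(F ⊔ E)).symm (f (h • y)) = sb (s h) ((eqv ↥(F ⊔ E)).symm (f y))
    obtain ⟨I, hI⟩ := ClassGroup.mk0_surjective (f y).toMul
    have hI0 : (I : Ideal (𝓞 ↥(F ⊔ E))) ≠ ⊥ := nonZeroDivisors.ne_zero I.2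
    have hI' : Additive.ofMul (ClassGroup.mk0 I) = f y := by rw [hI]; rfl
    have h3 := hf h (s h : ↥(F ⊔ E) →+* ↥(F ⊔ E)) (fun z hz => hs2 h ⟨z, hz⟩) (fun z w hzw => by
      have h4 : z = up' le_sup_left w := Subtype.ext hzw
      rw [h4]
      exact congrArg Subtype.val (hs1 h w)) y I
      ⟨_, mem_nonZeroDivisors_of_ne_zero (map_ne (s h : ↥(F ⊔ E) →+* ↥(F ⊔ E)) hI0)⟩ rfl hI'
    rw [ofMul_mk0] at h3 hI'
    rw [← h3, ← hI', AddEquiv.symm_apply_apply, AddEquiv.symm_apply_apply, sb_mk,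
      ← dvI_map _ _ hI0]
  · obtain ⟨k, hk⟩ := hx
    refine ⟨k, ?_⟩
    change p ^ k • (eqv ↥(F ⊔ E)).symm (f x) = 0
    rw [← map_nsmul, hk, map_zero]

/-- a reduction with kernel containing a given prime -/
theorem exists_phi_at (M : Type) [Field M] [NumberField M] (q : ℕ) [Fact q.Prime]
    (w : HeightOneSpectrum (𝓞 M)) (hqw : (q : 𝓞 M) ∈ w.asIdeal) :
    ∃ φ : 𝓞 M →+* AlgebraicClosure (ZMod q), ∀ x ∈ w.asIdeal, φ x = 0 := by
  have hmax := w.isMaximal
  let _ : Field (𝓞 M ⧸ w.asIdeal) := Ideal.Quotient.field w.asIdeal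
  have hfin : Finite (𝓞 M ⧸ w.asIdeal) := Ideal.finiteQuotientOfFreeOfNeBot _ w.ne_bot
  have hch : CharP (𝓞 M ⧸ w.asIdeal) q := by
    have h1 : ((q : ℕ) : 𝓞 M ⧸ w.asIdeal) = 0 := by
      have h2 := Ideal.Quotient.eq_zero_iff_mem.2 hqw
      rwa [map_natCast] at h2
    obtain ⟨r, hr⟩ := CharP.exists (𝓞 M ⧸ w.asIdeal)
    have h2 : r ∣ q := (CharP.cast_eq_zero_iff _ r q).1 h1
    have h3 : r ≠ 1 := CharP.char_ne_one (𝓞 M ⧸ w.asIdeal) r
    have h4 : r = q := ((Nat.dvd_prime Fact.out).1 h2).resolve_left h3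
    rw [← h4]
    exact hr
  let _ : Algebra (ZMod q) (𝓞 M ⧸ w.asIdeal) := ZMod.algebra _ q
  have : Module.Finite (ZMod q) (𝓞 M ⧸ w.asIdeal) := Module.Finite.of_finite
  have : Algebra.IsAlgebraic (ZMod q) (𝓞 M ⧸ w.asIdeal) := inferInstance
  let f : (𝓞 M ⧸ w.asIdeal) →ₐ[ZMod q] AlgebraicClosure (ZMod q) := IsAlgClosed.lift
  refine ⟨(f : (𝓞 M ⧸ w.asIdeal) →+* AlgebraicClosure (ZMod q)).comp
    (Ideal.Quotient.mk w.asIdeal), fun x hx => ?_⟩
  rw [RingHom.comp_apply, Ideal.Quotient.eq_zero_iff_mem.2 hx, map_zero]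

/-- a prime with a Frobenius element -/
theorem FrobAt.exists_w {M : Type} [Field M] [NumberField M] {p : ℕ} (hp : p.Prime)
    {g : M ≃ₐ[ℚ] M} (h : FrobAt p g) : ∃ w : HeightOneSpectrum (𝓞 M), (p : 𝓞 M) ∈ w.asIdeal ∧
      ∀ x : 𝓞 M, ∃ y ∈ w.asIdeal, (y : M) = g x - (x : M) ^ p := by
  obtain ⟨Q, hQ, hpQ, hQF⟩ := h
  have hQ0 : Q ≠ ⊥ := by
    rintro rfl
    rw [Ideal.mem_bot] at hpQ
    exact hp.ne_zero (by exact_mod_cast hpQ)
  exact ⟨⟨Q, hQ, hQ0⟩, hpQ, hQF⟩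

/-- `g` is a Frobenius element at a prime above `p` -/
def FrobR (p : ℕ) {M : Type} [Field M] [NumberField M] (g : M ≃+* M) : Prop :=
  ∃ Q : Ideal (𝓞 M), Q.IsPrime ∧ (p : 𝓞 M) ∈ Q ∧ ∀ x : 𝓞 M, ∃ y ∈ Q, (y : M) = g x - (x : M) ^ p

theorem frobR {p : ℕ} {M : Type} [Field M] [NumberField M] {g : M ≃+* M} :
    FrobR p g ↔ FrobAt p (rat g) := Iff.rfl

/-- the automorphisms over `ℚ` are all automorphisms -/
noncomputable def ratE (M : Type) [Field M] [NumberField M] : (M ≃+* M) ≃* (M ≃ₐ[ℚ] M) where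
  toFun := rat
  invFun g := g.toRingEquiv
  left_inv _ := rfl
  right_inv _ := rfl
  map_mul' _ _ := rfl

/-- **The density of the primes whose Frobenius elements lie in a set stable under conjugation.** -/
theorem dens_frob (M : Type) [Field M] [NumberField M] [IsGalois ℚ M] (S : Set (M ≃+* M))
    (hS : ∀ g ∈ S, ∀ τ : M ≃+* M, τ * g * τ⁻¹ ∈ S) :
    Tendsto (Pool.Agent.H515.KV.dn fun q => ∃ g ∈ S, FrobR q g) atTop
      (𝓝 ((Nat.card S : ℝ) / (Module.finrank ℚ M : ℝ))) := by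
  obtain ⟨D0, hD0, hT⟩ := torsor M
  have hd := Pool.Agent.H515.KV.dens M (rat '' S) (fun q => ∃ g ∈ S, FrobR q g) D0 hD0 ?_
  · have e1 : Nat.card (rat '' S : Set (M ≃ₐ[ℚ] M)) = Nat.card S :=
      Nat.card_image_of_injective (ratE M).injective S
    rw [e1, IsGalois.card_aut_eq_finrank] at hd
    exact hd
  intro q hq hqD φ σ hσ
  obtain ⟨-, t2, -⟩ := hT q hqD
  constructor
  · rintro ⟨g0, hg, hF⟩
    obtain ⟨g, hgg⟩ : ∃ g, g = rat g0 := ⟨_, rfl⟩
    obtain ⟨w, hqw, hwF⟩ := FrobAt.exists_w hq.out (frobR.1 hF)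
    rw [← hgg] at hwF
    obtain ⟨φ1, hφ1⟩ := exists_phi_at M q w hqw
    have h1 : ∀ x : 𝓞 M, φ1 (g • x) = φ1 x ^ q := by
      intro x
      obtain ⟨y, hy, hyx⟩ := hwF x
      have h2 : y = g • x - x ^ q := by
        apply RingOfIntegers.ext
        rw [hyx]
        rfl
      have h3 := hφ1 y hy
      rw [h2, map_sub, map_pow, sub_eq_zero] at h3
      exact h3
    obtain ⟨τ, hτ, -⟩ := t2 φ φ1
    obtain ⟨ρ, hρ, hu⟩ := t2 φ ((frobenius _ q).comp φ)
    have e1 : σ = ρ := hu σ fun x => (hσ x).symm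
    have e2 : τ * g * τ⁻¹ = ρ := by
      refine hu _ fun x => ?_
      change φ x ^ q = φ ((τ * g * τ⁻¹) • x)
      rw [mul_smul, mul_smul, ← hτ, h1, hτ, smul_inv_smul]
    rw [e1, ← e2, hgg]
    exact ⟨_, hS g0 hg τ.toRingEquiv, rfl⟩
  · rintro ⟨σ0, hσS, rfl⟩
    refine ⟨σ0, hσS, RingHom.ker φ, RingHom.ker_isPrime φ, ?_, fun x => ?_⟩
    · rw [RingHom.mem_ker, map_natCast, CharP.cast_eq_zero]
    · refine ⟨rat σ0 • x - x ^ q, ?_, rfl⟩
      rw [RingHom.mem_ker, map_sub, map_pow, hσ, sub_self]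

/-- for each conjugate `g'` of `g`, the elements of `H` which act as powers of `g'` have no common
invariants in `L` -/
def FreeAt {M : Type} [Field M] [NumberField M] {H : Type} [Group H] (ρ : H →* (M ≃+* M))
    (L : Type) [AddCommGroup L] [DistribMulAction H L] (g : M ≃+* M) : Prop :=
  ∀ (τ : M ≃+* M) (x : L),
    (∀ h : H, ρ h ∈ Subgroup.zpowers (τ * g * τ⁻¹) → h • x = x) → x = 0

theorem freeAt_conj {M : Type} [Field M] [NumberField M] {H : Type} [Group H]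
    {ρ : H →* (M ≃+* M)} {L : Type} [AddCommGroup L] [DistribMulAction H L] {g : M ≃+* M}
    (hg : FreeAt ρ L g) (σ : M ≃+* M) : FreeAt ρ L (σ * g * σ⁻¹) := by
  intro τ x hx
  refine hg (τ * σ) x fun h hh => hx h ?_
  have e : τ * (σ * g * σ⁻¹) * τ⁻¹ = τ * σ * g * (τ * σ)⁻¹ := by
    rw [mul_inv_rev]
    simp only [mul_assoc]
  rw [e]
  exact hh

/-- a Frobenius element without invariants -/
theorem dec_of_frob {M : Type} [Field M] [NumberField M] [IsGalois ℚ M] {p : ℕ} (hp : p.Prime)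
    {g0 : M ≃+* M} (hF0 : FrobR p g0) {H : Type} [Group H] {ρ : H →* (M ≃+* M)} {L : Type}
    [AddCommGroup L] [DistribMulAction H L] (hg : FreeAt ρ L g0) : DecHyp p (rat.comp ρ) L := by
  intro P hP x hx
  obtain ⟨g, hgg⟩ : ∃ g, g = rat g0 := ⟨_, rfl⟩
  have hF : FrobAt p g := by rw [hgg]; exact hF0
  obtain ⟨w, hpw, hwF⟩ := FrobAt.exists_w hp hF
  have hgw : act g w = w := by
    have h1 : ∀ y ∈ w.asIdeal, RingOfIntegers.mapRingEquiv g.toRingEquiv y ∈ w.asIdeal := by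
      intro y hy
      obtain ⟨z, hz, hzy⟩ := hwF y
      have h2 : RingOfIntegers.mapRingEquiv g.toRingEquiv y = z + y ^ p := by
        apply RingOfIntegers.ext
        change g (y : M) = (z : M) + (y : M) ^ p
        rw [hzy, sub_add_cancel]
      rw [h2]
      exact add_mem hz (Ideal.pow_mem_of_mem _ hy _ hp.pos)
    have h3 : w.asIdeal ≤ (act g⁻¹ w).asIdeal := by
      intro y hy
      rw [mem_act]
      exact h1 y hy
    have h4 : act g⁻¹ w = w := by
      apply HeightOneSpectrum.ext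
      have hm := w.isMaximal
      exact (hm.eq_of_le (act g⁻¹ w).isPrime.ne_top h3).symm
    conv_lhs => rw [← h4]
    rw [← Pool.Agent.TeamU.act_mul, mul_inv_cancel, Pool.Agent.TeamU.act_one]
  have hv : P.under (𝓞 ℚ) = w.under (𝓞 ℚ) :=
    rat_prime_unique hp (mem_under.2 hP) (mem_under.2 hpw)
  obtain ⟨τ, hτ⟩ := Pool.Agent.TeamU.exists_act (k := ℚ) (P := w) (Q := P)
    (v := w.under (𝓞 ℚ)) rfl (congrArg HeightOneSpectrum.asIdeal hv)
  have h5 : act (τ * g * τ⁻¹) P = P := by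
    have h6 : act τ⁻¹ P = w := by
      rw [← hτ, ← Pool.Agent.TeamU.act_mul, inv_mul_cancel, Pool.Agent.TeamU.act_one]
    rw [Pool.Agent.TeamU.act_mul, Pool.Agent.TeamU.act_mul, h6, hgw, hτ]
  refine hg τ.toRingEquiv x fun h hh => hx h ?_
  have hfo : IsOfFinOrder (τ.toRingEquiv * g0 * τ.toRingEquiv⁻¹) := by
    rw [← (ratE M).injective.isOfFinOrder_iff (f := (ratE M).toMonoidHom)]
    exact isOfFinOrder_of_finite _
  obtain ⟨j, hj⟩ := hfo.mem_powers_iff_mem_zpowers.2 hh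
  have hj' : (τ * g * τ⁻¹) ^ j = rat (ρ h) := by
    have h6 := congrArg rat (show (τ.toRingEquiv * g0 * τ.toRingEquiv⁻¹) ^ j = ρ h from hj)
    rw [map_pow, map_mul, map_mul, map_inv, ← hgg] at h6
    exact h6
  change act (rat (ρ h)) P = P
  rw [← hj']
  clear hj hj' hh
  induction j with
  | zero => rw [pow_zero, Pool.Agent.TeamU.act_one]
  | succ j ih => rw [pow_succ, Pool.Agent.TeamU.act_mul, h5, ih]

theorem base_of_not_dvd {M : Type} [Field M] [NumberField M] {p : ℕ} (hp : p.Prime)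
    (h : ¬ p ∣ classNumber M) {H : Type} [Group H] (ρ : H →* (M ≃ₐ[ℚ] M)) (L : Type)
    [AddCommGroup L] [DistribMulAction H L] : BaseHyp p ρ L := by
  intro c hc x ⟨k, hk⟩
  have h1 : Nat.card (DC M) • c x = 0 := card_nsmul_eq_zero'
  rw [Pool.Agent.H515.CH.card_DC] at h1
  have hcop : (classNumber M).Coprime (p ^ k) :=
    Nat.Coprime.pow_right _ ((Nat.Prime.coprime_iff_not_dvd hp).2 h).symm
  exact mem_of_coprime (S := ⊥) hcop (by rw [h1]; exact zero_mem _) (by rw [hk]; exact zero_mem _)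

end Pool.Agent.H515.EQ
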