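import Pool.Agent.H515.EQ.Van
import Pool.Agent.H515.Lay4

/-! # Automorphisms of the layers -/

set_option autoImplicit false
set_option linter.unusedSectionVars false
set_option linter.deprecated false

namespace Pool.Agent.H515.EQ

open NumberField IsDedekindDomain Pool.Agent.Q5.BR Pool.Agent.Q92.AR Pool.Agent.Q106.AR
open Pool.Agent.TeamU (act mem_act)
open Pool.Agent.H515.CH (UU PP cn ri DC sb sb_mk sb_le sb_finrank eqv cls dvI_map cls_dvI mr map_ne
  inc adj_top sub_gal sub_fin nf cyc cyc_ext cyc_fin cyc_ab Xt IsLayer)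

/-- an element of the smaller field -/
abbrev up' {K M : IntermediateField ℚ ℂ} (h : K ≤ M) (x : K) : M := ⟨x, h x.2⟩

theorem ext_sup {F E M : IntermediateField ℚ ℂ} (hF : F ≤ M) (hE : E ≤ M) (hM : M ≤ F ⊔ E)
    (σ τ : M ≃ₐ[ℚ] M) (h1 : ∀ x : F, σ (up' hF x) = τ (up' hF x))
    (h2 : ∀ x : E, σ (up' hE x) = τ (up' hE x)) : σ = τ := by
  let S : IntermediateField ℚ M :=
    (AlgHom.equalizer (σ : M →ₐ[ℚ] M) (τ : M →ₐ[ℚ] M)).toIntermediateField fun x hx => by
      have hx' : σ x = τ x := hx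
      change σ x⁻¹ = τ x⁻¹
      rw [map_inv₀, map_inv₀, hx']
  have h3 : F ⊔ E ≤ IntermediateField.lift S := by
    refine sup_le ?_ ?_
    · intro y hy
      exact ⟨⟨y, hF hy⟩, h1 ⟨y, hy⟩, rfl⟩
    · intro y hy
      exact ⟨⟨y, hE hy⟩, h2 ⟨y, hy⟩, rfl⟩
  ext x
  obtain ⟨y, hy, hyx⟩ := h3 (hM x.2)
  have h4 : y = x := Subtype.ext hyx
  rw [← h4]
  exact congrArg Subtype.val hy

theorem res_pow {K M : IntermediateField ℚ ℂ} (h : K ≤ M) (σ : M ≃ₐ[ℚ] M) (τ : K ≃ₐ[ℚ] K)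
    (hστ : ∀ x : K, σ (up' h x) = up' h (τ x)) (n : ℕ) (x : K) :
    (σ ^ n) (up' h x) = up' h ((τ ^ n) x) := by
  induction n generalizing x with
  | zero => rfl
  | succ n ih =>
    rw [pow_succ, pow_succ]
    change (σ ^ n) (σ (up' h x)) = up' h ((τ ^ n) (τ x))
    rw [hστ, ih]

theorem exists_res {K M : IntermediateField ℚ ℂ} (h : K ≤ M) [IsGalois ℚ K] (σ : M ≃ₐ[ℚ] M) :
    ∃ τ : K ≃ₐ[ℚ] K, ∀ x : K, σ (up' h x) = up' h (τ x) := by
  let i := inc h
  have t : IsScalarTower ℚ K M := IsScalarTower.of_algebraMap_eq fun x => rfl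
  exact ⟨σ.restrictNormal K, fun x => (σ.restrictNormal_commutes K x).symm⟩

theorem exists_ext {K M : IntermediateField ℚ ℂ} (h : K ≤ M) [IsGalois ℚ M]
    [FiniteDimensional ℚ M] (τ : K ≃ₐ[ℚ] K) :
    ∃ σ : M ≃ₐ[ℚ] M, ∀ x : K, σ (up' h x) = up' h (τ x) := by
  let i := inc h
  have t : IsScalarTower ℚ K M := IsScalarTower.of_algebraMap_eq fun x => rfl
  exact ⟨τ.liftNormal M, fun x => τ.liftNormal_commutes M x⟩

/-- the lift which is trivial on a field of degree prime to the order -/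
theorem exists_lift {F E M : IntermediateField ℚ ℂ} [NumberField F] [NumberField M]
    [IsGalois ℚ M] [IsGalois ℚ E] [FiniteDimensional ℚ E] (hF : F ≤ M) (hE : E ≤ M)
    (τ : F ≃ₐ[ℚ] F) (hc : (orderOf τ).Coprime (Module.finrank ℚ E)) :
    ∃ σ : M ≃ₐ[ℚ] M, (∀ x : F, σ (up' hF x) = up' hF (τ x)) ∧
      ∀ x : E, σ (up' hE x) = up' hE x := by
  obtain ⟨σ0, h0⟩ := exists_ext hF τ
  obtain ⟨ρ, hρ⟩ := exists_res hE σ0
  obtain ⟨e, he1, he2⟩ := Nat.chineseRemainder hc 1 0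
  refine ⟨σ0 ^ e, fun x => ?_, fun x => ?_⟩
  · rw [res_pow hF σ0 τ h0]
    have h1 : τ ^ e = τ ^ 1 := pow_eq_pow_iff_modEq.2 he1
    rw [h1, pow_one]
  · rw [res_pow hE σ0 ρ hρ]
    have h1 : Module.finrank ℚ E ∣ e := (Nat.modEq_zero_iff_dvd).1 he2
    have h2 : ρ ^ e = 1 := by
      rw [← orderOf_dvd_iff_pow_eq_one]
      refine dvd_trans ?_ h1
      rw [← IsGalois.card_aut_eq_finrank]
      exact orderOf_dvd_natCard ρ
    rw [h2]
    rfl

/-- the Galois group of a layer is cyclic -/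
theorem cyc_gal {p : ℕ} (hp : p.Prime) (hp2 : p ≠ 2) (N : ℕ) {E : IntermediateField ℚ ℂ}
    (hE : E ≤ cyc (p ^ N)) : IsCyclic (E ≃ₐ[ℚ] E) := by
  have hN : p ^ N ≠ 0 := pow_ne_zero _ hp.ne_zero
  have : NeZero (p ^ N) := ⟨hN⟩
  have hce := cyc_ext hN
  have hfd := cyc_fin hN
  have hnf : NumberField (cyc (p ^ N)) := nf hfd
  have hEg : IsGalois ℚ E := sub_gal hN hE
  have hab := cyc_ab hN
  have h1 : IsCyclic (ZMod (p ^ N))ˣ := ZMod.isCyclic_units_of_prime_pow p hp hp2 N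
  let e := IsCyclotomicExtension.Rat.galEquivZMod (p ^ N) (cyc (p ^ N))
  have h2 : IsCyclic (cyc (p ^ N) ≃ₐ[ℚ] cyc (p ^ N)) :=
    isCyclic_of_surjective e.symm.toMonoidHom e.symm.surjective
  let i := inc hE
  have t : IsScalarTower ℚ E (cyc (p ^ N)) := IsScalarTower.of_algebraMap_eq fun x => rfl
  have hcg : IsGalois ℚ (cyc (p ^ N)) := hab.toIsGalois
  exact isCyclic_of_surjective (AlgEquiv.restrictNormalHom (F := ℚ) (K₁ := cyc (p ^ N)) E)
    (AlgEquiv.restrictNormalHom_surjective (cyc (p ^ N)))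

/-- the hypothesis on the decomposition groups: no vector of `L` is fixed by the decomposition group
in `H` of a prime above `p` -/
def DecHyp (p : ℕ) {F : Type} [Field F] [NumberField F] {H : Type} [Group H]
    (ρ : H →* (F ≃ₐ[ℚ] F)) (L : Type) [AddCommGroup L] [DistribMulAction H L] : Prop :=
  ∀ P : HeightOneSpectrum (𝓞 F), (p : 𝓞 F) ∈ P.asIdeal →
    ∀ x : L, (∀ h : H, act (ρ h) P = P → h • x = x) → x = 0

/-- no `p`-power torsion equivariant homomorphism to the class group -/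
def BaseHyp (p : ℕ) {F : Type} [Field F] [NumberField F] {H : Type} [Group H]
    (ρ : H →* (F ≃ₐ[ℚ] F)) (L : Type) [AddCommGroup L] [DistribMulAction H L] : Prop :=
  ∀ c : L →+ DC F, (∀ (h : H) (x : L), c (h • x) = sb (ρ h) (c x)) →
    ∀ x, (∃ k, p ^ k • c x = 0) → c x = 0

theorem func_zero {p : ℕ} {F : Type} [Field F] [NumberField F] {H : Type} [Group H] [Finite H]
    {ρ : H →* (F ≃ₐ[ℚ] F)}
    {L : Type} [AddCommGroup L] [DistribMulAction H L] (hdec : DecHyp p ρ L)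
    (P : HeightOneSpectrum (𝓞 F)) (hP : (p : 𝓞 F) ∈ P.asIdeal) (l : L →+ ℤ)
    (hl : ∀ h : H, act (ρ h) P = P → ∀ x, l (h • x) = l x) : l = 0 := by
  classical
  let D : Subgroup H :=
    { carrier := {h | act (ρ h) P = P}
      mul_mem' := fun {a b} ha hb => by
        change act (ρ (a * b)) P = P
        rw [map_mul, Pool.Agent.TeamU.act_mul]
        have ha' : act (ρ a) P = P := ha
        have hb' : act (ρ b) P = P := hb
        rw [hb', ha']
      one_mem' := by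
        change act (ρ 1) P = P
        rw [map_one]
        exact Pool.Agent.TeamU.act_one P
      inv_mem' := fun {a} ha => by
        have ha' : act (ρ a) P = P := ha
        change act (ρ a⁻¹) P = P
        conv_lhs => rw [← ha']
        rw [← Pool.Agent.TeamU.act_mul, map_inv, inv_mul_cancel, Pool.Agent.TeamU.act_one] }
  have hft : Fintype D := Fintype.ofFinite D
  ext x
  have h1 : ∑ d : D, (d : H) • x = 0 := by
    refine hdec P hP _ fun h hh => ?_
    rw [Finset.smul_sum]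
    refine Fintype.sum_equiv (Equiv.mulLeft (⟨h, hh⟩ : D)) _ _ fun d => ?_
    rw [smul_smul]
    rfl
  have h2 := congrArg l h1
  rw [map_sum, map_zero, Finset.sum_congr rfl fun (d : D) _ => hl d d.2 x, Finset.sum_const,
    Finset.card_univ, smul_eq_zero] at h2
  rcases h2 with h2 | h2
  · exact absurd h2 Fintype.card_pos.ne'
  · exact h2

end Pool.Agent.H515.EQ
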