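import Pool.Agent.H515.EQ.Un
import Pool.Agent.H515.Trf

/-! # Vanishing of the part of a lattice in class groups -/

set_option autoImplicit false
set_option linter.unusedSectionVars false
set_option linter.deprecated false

namespace Pool.Agent.H515.EQ

open NumberField IsDedekindDomain Pool.Agent.Q5.BR Pool.Agent.Q92.AR Pool.Agent.Q106.AR
open Pool.Agent.Q182.AR (upA nuA upA_injective tr_sE fixed_up resE resE_isRes sE_mul sE_one sD_mul
  sD_one)
open Pool.Agent.TeamU (act mem_act)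
open Pool.Agent.H515.CH (UU PP prinHom_sE prinHom_df prinHom_tr hilb90 h1Dv cn cn_apply ri DC sb
  sb_mk sb_le jb)

section
variable {K F E H L : Type} [Field K] [NumberField K] [Field F] [NumberField F] [Field E]
  [NumberField E] [Algebra K E] [Algebra F E] [Algebra K F] [IsScalarTower K F E]
  [Group H] [Fintype H] [AddCommGroup L] [DistribMulAction H L]
  (s : H →* (E ≃ₐ[K] E))

theorem act_comm {γ : E ≃ₐ[F] E} {g : E ≃ₐ[K] E} (hs : ∀ x, γ (g x) = g (γ x))
    (w : HeightOneSpectrum (𝓞 E)) : act γ (act g w) = act g (act γ w) := by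
  ext x
  rw [mem_act, mem_act, mem_act, mem_act]
  have h : (RingOfIntegers.mapRingEquiv g.toRingEquiv).symm
      ((RingOfIntegers.mapRingEquiv γ.toRingEquiv).symm x) =
      (RingOfIntegers.mapRingEquiv γ.toRingEquiv).symm
      ((RingOfIntegers.mapRingEquiv g.toRingEquiv).symm x) := by
    apply RingOfIntegers.ext
    change g.symm (γ.symm (x : E)) = γ.symm (g.symm (x : E))
    rw [AlgEquiv.symm_apply_eq, AlgEquiv.symm_apply_eq, hs, AlgEquiv.apply_symm_apply,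
      AlgEquiv.apply_symm_apply]
  rw [h]

theorem prin_tE (h : H) (a : Additive Eˣ) : prinHom (tE s h a) = tD s h (prinHom a) := by
  rw [tE_apply, tD_apply]
  exact prinHom_sE (s h) a

theorem df_tE {γ : E ≃ₐ[F] E} (hs : ∀ h x, γ (s h x) = s h (γ x)) (h : H) (a : Additive Eˣ) :
    df (sE γ) (tE s h a) = tE s h (df (sE γ) a) := by
  rw [df_apply, df_apply, map_sub, sE_comm s hs]

theorem df_tU {γ : E ≃ₐ[F] E} (hs : ∀ h x, γ (s h x) = s h (γ x)) (h : H) (a : UU E) :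
    df (gU γ) (tU s h a) = tU s h (df (gU γ) a) := by
  rw [df_apply, df_apply, map_sub, gU_comm s hs]

theorem sD_comm {γ : E ≃ₐ[F] E} (hs : ∀ h x, γ (s h x) = s h (γ x)) (h : H) (D : Dv E) :
    sD γ (tD s h D) = tD s h (sD γ D) := by
  ext w
  obtain ⟨w', rfl⟩ := Pool.Agent.Q225.AR.act_surj γ w
  rw [Pool.Agent.Q225.AR.sD_act]
  obtain ⟨w'', rfl⟩ := Pool.Agent.Q225.AR.act_surj (s h) w'
  rw [act_comm (hs h), tD_apply, Pool.Agent.Q225.AR.sD_act, Pool.Agent.Q225.AR.sD_act,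
    Pool.Agent.Q225.AR.sD_act]

/-- divisors fixed by `γ` and trivial at the ramified primes come from `F` -/
theorem mem_cn [IsGalois F E] {γ : E ≃ₐ[F] E} (hγ : ∀ g : E ≃ₐ[F] E, g ∈ Subgroup.zpowers γ)
    {D : Dv E} (hD : sD γ D = D) (hD0 : ∀ w, ri F w ≠ 1 → D w = 0) : D ∈ (cn F E).range := by
  obtain ⟨-, -, s3, -, -, s6, -⟩ := all_SD F E γ hγ
  obtain ⟨D', hD'⟩ := s6 D hD
  refine ⟨D', ?_⟩
  ext w
  rw [cn_apply]
  have h1 : D w = D' (w.under (𝓞 F)) := by rw [hD', s3]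
  by_cases h : ri F w = 1
  · rw [h, h1, Nat.cast_one, one_mul]
  · rw [← h1, hD0 w h, mul_zero]

/-- the hypothesis at the ramified primes -/
def RamHyp (F L : Type) [Field F] [NumberField F] [Algebra F E] [AddCommGroup L]
    [DistribMulAction H L] : Prop :=
  ∀ w : HeightOneSpectrum (𝓞 E), ri F w ≠ 1 →
    ∀ l : L →+ ℤ, (∀ h : H, act (s h) w = w → ∀ x, l (h • x) = l x) → l = 0

theorem eqv_zero (hram : RamHyp s F L) {φ : L →+ Dv E} (hφ : φ ∈ Eqv L (tD s)) (x : L)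
    (w : HeightOneSpectrum (𝓞 E)) (hw : ri F w ≠ 1) : φ x w = 0 := by
  have h1 := hram w hw ((Finsupp.applyAddHom w).comp φ) fun h hh x => by
    change φ (h • x) w = φ x w
    rw [hφ h x, tD_apply]
    conv_lhs => rw [← hh]
    rw [Pool.Agent.Q225.AR.sD_act]
  exact DFunLike.congr_fun h1 x

theorem eqv_cn [IsGalois F E] {γ : E ≃ₐ[F] E} (hγ : ∀ g : E ≃ₐ[F] E, g ∈ Subgroup.zpowers γ)
    (hram : RamHyp s F L) {φ : L →+ Dv E} (hφ : φ ∈ Eqv L (tD s))
    (hf : ∀ x, sD γ (φ x) = φ x) (x : L) : φ x ∈ (cn F E).range :=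
  mem_cn hγ (hf x) fun w hw => eqv_zero s hram hφ x w hw

/-- the hypothesis on the class group of `F` -/
def ClsHyp (F L : Type) [Field F] [NumberField F] [Algebra F E] [AddCommGroup L]
    [DistribMulAction H L] (M : ℕ) : Prop :=
  ∀ φ ∈ Eqv L (tD s), (∀ x, φ x ∈ (cn F E).range) →
    ∀ x, ∃ c : Additive Fˣ, M • φ x = prinHom (upA F E c)

theorem df_upA (γ : E ≃ₐ[F] E) (c : Additive Fˣ) : df (sE γ) (upA F E c) = 0 := by
  rw [df_apply, sub_eq_zero]
  apply Additive.toMul.injective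
  apply Units.ext
  exact γ.commutes _

theorem avg_of_mem' {A : Type} [AddCommGroup A] {t : H →* AddMonoid.End A} {φ : L →+ A}
    (hφ : φ ∈ Eqv L t) {N : ℕ} (hN : N = Fintype.card H) : avg t φ = N • φ := by
  rw [hN]
  exact avg_of_mem hφ

theorem comp_avg_U {γ : E ≃ₐ[F] E} (hs : ∀ h x, γ (s h x) = s h (γ x)) (ψ χ : L →+ UU E)
    (hψ : (df (gU γ)).comp ψ = χ) (hχ : χ ∈ Eqv L (tU s)) (N : ℕ) (hN : N = Fintype.card H) :
    (df (gU γ)).comp (avg (tU s) ψ) = N • χ := by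
  ext1 x
  rw [← avg_of_mem' hχ hN, AddMonoidHom.comp_apply, avg_apply, avg_apply, map_sum]
  refine Finset.sum_congr rfl fun h _ => ?_
  rw [df_tU s hs, ← hψ]
  rfl

theorem lift_U [Module.Free ℤ L] (γ : E ≃ₐ[F] E) (hs : ∀ h x, γ (s h x) = s h (γ x))
    (χ : L →+ UU E) (h : ∀ x, χ x ∈ (df (gU γ)).range) (hχ : χ ∈ Eqv L (tU s)) (N : ℕ)
    (hN : N = Fintype.card H) :
    ∃ Ψ : Eqv L (tU s), ∀ x, df (gU γ) (Ψ.1 x) = N • χ x := by
  obtain ⟨ψ, hψ⟩ := lift (df (gU γ)) χ h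
  exact ⟨⟨avg (tU s) ψ, avg_mem (tU s) ψ⟩,
    fun x => DFunLike.congr_fun (comp_avg_U s hs ψ χ hψ hχ N hN) x⟩

/-- **The units have no `H¹`** on the part of `L`. -/
theorem units_h1 [Module.Free ℤ L] [IsGalois F E]
    (γ : E ≃ₐ[F] E) (hγ : ∀ g : E ≃ₐ[F] E, g ∈ Subgroup.zpowers γ)
    (hs : ∀ h x, γ (s h x) = s h (γ x))
    (hn : (Fintype.card H).Coprime (Module.finrank F E))
    {M : ℕ} (hh : M.Coprime (Module.finrank F E)) (hcl : ClsHyp s F L M) (hram : RamHyp s F L) :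
    (tr (pU s L γ hs) (Module.finrank F E)).ker ≤ (df (pU s L γ hs)).range := by
  classical
  obtain ⟨N, hN⟩ : ∃ N, N = Fintype.card H := ⟨_, rfl⟩
  rw [← hN] at hn
  intro φ hφ
  have hφ' : tr (pU s L γ hs) (Module.finrank F E) φ = 0 := hφ
  have h1 : ∀ x, ((φ.1 x : UU E) : Additive Eˣ) ∈ (df (sE γ)).range := by
    intro x
    rw [hilb90 γ hγ, AddMonoidHom.mem_ker]
    have h2 : ((tr (pU s L γ hs) (Module.finrank F E) φ : Eqv L (tU s)) : L →+ UU E) x = 0 := by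
      rw [hφ']
      rfl
    unfold pU at h2
    rw [pc_tr] at h2
    have h3 := congrArg (fun z : UU E => (z : Additive Eˣ)) h2
    change ((tr (gU γ) (Module.finrank F E) (φ.1 x) : UU E) : Additive Eˣ) = 0 at h3
    rw [Pool.Agent.Q225.AR.isRes_tr (gU_apply γ)] at h3
    exact h3
  obtain ⟨β, hβ⟩ := lift (df (sE γ)) ((UU E).subtype.comp φ.1) h1
  have hφm : (UU E).subtype.comp φ.1 ∈ Eqv L (tE s) := by
    intro h x
    change ((φ.1 (h • x) : UU E) : Additive Eˣ) = tE s h (φ.1 x)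
    rw [φ.2 h x, tU_apply]
    rfl
  have hβx : ∀ x, df (sE γ) (avg (tE s) β x) = N • ((φ.1 x : UU E) : Additive Eˣ) := by
    intro x
    have h2 := comp_avg (t := tE s) (t' := tE s) (df (sE γ)) (df_tE s hs) β
    rw [hβ, avg_of_mem' hφm hN] at h2
    exact DFunLike.congr_fun h2 x
  have hD : prinHom.comp (avg (tE s) β) ∈ Eqv L (tD s) :=
    comp_mem (t := tE s) prinHom (prin_tE s) (avg_mem (tE s) β)
  have hDf : ∀ x, sD γ (prinHom (avg (tE s) β x)) = prinHom (avg (tE s) β x) := by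
    intro x
    rw [← sub_eq_zero]
    change df (sD γ) _ = 0
    rw [← prinHom_df, hβx, map_nsmul]
    have h2 : prinHom ((φ.1 x : UU E) : Additive Eˣ) = 0 := (φ.1 x).2
    rw [h2]
    exact smul_zero _
  have h4 : ∀ x, ((M * N) • φ.1) x ∈ (df (gU γ)).range := by
    intro x
    obtain ⟨c, hc⟩ := hcl _ hD (fun x => eqv_cn s hγ hram hD hDf x) x
    change M • prinHom (avg (tE s) β x) = _ at hc
    have h5 : M • avg (tE s) β x - upA F E c ∈ UU E := by
      rw [AddMonoidHom.mem_ker, map_sub, map_nsmul, ← hc]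
      exact sub_self _
    refine ⟨⟨_, h5⟩, ?_⟩
    apply Subtype.ext
    change ((gU γ ⟨_, h5⟩ : UU E) : Additive Eˣ) - _ = _
    rw [gU_apply]
    change df (sE γ) (M • avg (tE s) β x - upA F E c) = _
    rw [map_sub, df_upA, sub_zero, map_nsmul, hβx, smul_smul]
    rfl
  obtain ⟨Ψ, hΨ⟩ := lift_U s γ hs ((M * N) • φ.1) h4 (nsmul_mem φ.2 _) N hN
  have hc : (N * (M * N)).Coprime (Module.finrank F E) :=
    Nat.Coprime.mul_left hn (Nat.Coprime.mul_left hh hn)
  have h7 : (N * (M * N)) • φ ∈ (df (pU s L γ hs)).range := by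
    refine ⟨Ψ, Subtype.ext ?_⟩
    ext1 x
    have h8 := hΨ x
    have h9 : (((N * (M * N)) • φ : Eqv L (tU s)) : L →+ UU E) x = N • ((M * N) • φ.1) x := by
      rw [AddSubgroup.coe_nsmul, mul_smul]
      rfl
    rw [h9, ← h8]
    exact pc_df (gU γ) (gU_comm s hs) Ψ x
  exact mem_of_coprime hc h7 (smul_mem_df _ _ φ hφ')

/-- **The invariant part of the class group has no `L`-part.** -/
theorem inv_zero [Module.Free ℤ L] [Module.Finite ℤ L] [IsGalois K E] [IsGalois F E]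
    (γ : E ≃ₐ[F] E) (hγ : ∀ g : E ≃ₐ[F] E, g ∈ Subgroup.zpowers γ)
    (hs : ∀ h x, γ (s h x) = s h (γ x)) (hR : IsEmpty (RealRam F E))
    (hn : (Fintype.card H).Coprime (Module.finrank F E))
    {M : ℕ} (hh : M.Coprime (Module.finrank F E)) (hcl : ClsHyp s F L M)
    (hinv : ∀ l : L →+ ℤ, (∀ (h : H) x, l (h • x) = l x) → l = 0) (hram : RamHyp s F L)
    (c : L →+ DC E) (hc : ∀ h x, c (h • x) = sb (s h) (c x)) (hcγ : ∀ x, sb γ (c x) = c x) :
    (M * Fintype.card H ^ 3) • c = 0 := by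
  classical
  obtain ⟨a, ha⟩ := lift (QuotientAddGroup.mk' (PP E)) c fun x =>
    QuotientAddGroup.mk'_surjective (PP E) (c x)
  have hax : ∀ x, (QuotientAddGroup.mk (a x) : DC E) = c x := fun x => DFunLike.congr_fun ha x
  obtain ⟨a', ha'⟩ : ∃ a', a' = avg (tD s) a := ⟨_, rfl⟩
  have ham : a' ∈ Eqv L (tD s) := by rw [ha']; exact avg_mem _ _
  have hac : ∀ x, (QuotientAddGroup.mk (a' x) : DC E) = Fintype.card H • c x := by
    intro x
    rw [ha', avg_apply]
    have h1 : (QuotientAddGroup.mk (∑ h : H, tD s h (a (h⁻¹ • x))) : DC E) =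
        ∑ h : H, (QuotientAddGroup.mk (tD s h (a (h⁻¹ • x))) : DC E) :=
      map_sum (QuotientAddGroup.mk' (PP E)) _ _
    rw [h1]
    have h2 : ∀ h : H, (QuotientAddGroup.mk (tD s h (a (h⁻¹ • x))) : DC E) = c x := by
      intro h
      rw [tD_apply, ← sb_mk, hax, ← hc, smul_inv_smul]
    rw [Finset.sum_congr rfl fun h _ => h2 h, Finset.sum_const, Finset.card_univ]
  have hda : ∀ x, df (sD γ) (a' x) ∈ (prinHom (F := E)).range := by
    intro x
    change df (sD γ) (a' x) ∈ PP E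
    rw [← QuotientAddGroup.eq_zero_iff, df_apply, QuotientAddGroup.mk_sub, ← sb_mk, hac,
      map_nsmul, hcγ, sub_self]
  have hdt : ∀ (h : H) (D : Dv E), df (sD γ) (tD s h D) = tD s h (df (sD γ) D) := by
    intro h D
    rw [df_apply, df_apply, map_sub, sD_comm s hs]
  have hda' : (df (sD γ)).comp a' ∈ Eqv L (tD s) := comp_mem _ hdt ham
  obtain ⟨α, hα⟩ := lift prinHom ((df (sD γ)).comp a') hda
  obtain ⟨α', hα'⟩ : ∃ α', α' = avg (tE s) α := ⟨_, rfl⟩
  have hαm : α' ∈ Eqv L (tE s) := by rw [hα']; exact avg_mem _ _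
  have hαx : ∀ x, prinHom (α' x) = Fintype.card H • df (sD γ) (a' x) := by
    intro x
    have h1 : prinHom.comp α' = Fintype.card H • (df (sD γ)).comp a' := by
      rw [hα', comp_avg (t := tE s) (t' := tD s) prinHom (prin_tE s), hα, avg_of_mem hda']
    exact DFunLike.congr_fun h1 x
  have hDn := Pool.Agent.Q182.AR.sD_pow_finrank γ
  have hEn := Pool.Agent.Q182.AR.sE_pow_finrank γ
  have hNU : ∀ x, tr (sE γ) (Module.finrank F E) (α' x) ∈ UU E := by
    intro x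
    have h1 : tr (sD γ) (Module.finrank F E) (df (sD γ) (a' x)) = 0 :=
      Pool.Agent.Q150.AR.tr_df (sD γ) (Module.finrank F E) hDn (a' x)
    have h2 : prinHom (tr (sE γ) (Module.finrank F E) (α' x)) = 0 := by
      rw [prinHom_tr, hαx, map_nsmul, h1]
      exact smul_zero _
    exact h2
  have htE : ∀ (h : H) (y : Additive Eˣ), tr (sE γ) (Module.finrank F E) (tE s h y) =
      tE s h (tr (sE γ) (Module.finrank F E) y) := by
    intro h y
    rw [tr_apply, tr_apply, map_sum]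
    exact Finset.sum_congr rfl fun i _ => comm_pow (sE γ) (tE s) (sE_comm s hs) i h y
  let η0 : L →+ UU E := ((tr (sE γ) (Module.finrank F E)).comp α').codRestrict (UU E) hNU
  have hη0 : ∀ x, ((η0 x : UU E) : Additive Eˣ) = tr (sE γ) (Module.finrank F E) (α' x) :=
    fun x => rfl
  have hη0m : η0 ∈ Eqv L (tU s) := by
    intro h x
    apply Subtype.ext
    rw [tU_apply, hη0, hη0, hαm h x, htE]
    rfl
  have hη : df (pU s L γ hs) ⟨η0, hη0m⟩ = 0 := by
    apply Subtype.ext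
    ext1 x
    apply Subtype.ext
    change ((gU γ (η0 x) : UU E) : Additive Eˣ) - ((η0 x : UU E) : Additive Eˣ) = 0
    rw [gU_apply, hη0]
    exact Pool.Agent.Q150.AR.df_tr _ _ hEn _
  obtain ⟨ε, hε⟩ := units_h0 s γ hγ hs hR hn hinv (units_h1 s γ hγ hs hn hh hcl hram) hη
  have hεx : ∀ x, tr (sE γ) (Module.finrank F E) ((ε.1 x : UU E) : Additive Eˣ) =
      tr (sE γ) (Module.finrank F E) (α' x) := by
    intro x
    rw [← hη0, ← Pool.Agent.Q225.AR.isRes_tr (gU_apply γ)]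
    have h1 := congrArg (fun z : Eqv L (tU s) => (z : L →+ UU E) x) hε
    change ((tr (pU s L γ hs) (Module.finrank F E) ε : Eqv L (tU s)) : L →+ UU E) x = η0 x at h1
    unfold pU at h1
    rw [pc_tr] at h1
    rw [h1]
  let κ : L →+ Additive Eˣ := α' - (UU E).subtype.comp ε.1
  have hκ : ∀ x, κ x = α' x - ((ε.1 x : UU E) : Additive Eˣ) := fun x => rfl
  have hκm : κ ∈ Eqv L (tE s) := by
    refine sub_mem hαm ?_
    intro h x
    change ((ε.1 (h • x) : UU E) : Additive Eˣ) = tE s h (ε.1 x)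
    rw [ε.2 h x, tU_apply]
    rfl
  have hκr : ∀ x, κ x ∈ (df (sE γ)).range := by
    intro x
    rw [hilb90 γ hγ, AddMonoidHom.mem_ker, hκ, map_sub, hεx, sub_self]
  obtain ⟨b, hb⟩ := lift (df (sE γ)) κ hκr
  have hb' : (df (sE γ)).comp (avg (tE s) b) = Fintype.card H • κ := by
    rw [comp_avg (t := tE s) (t' := tE s) (df (sE γ)) (df_tE s hs), hb, avg_of_mem hκm]
  have hbx : ∀ x, df (sE γ) (avg (tE s) b x) = Fintype.card H • κ x :=
    fun x => DFunLike.congr_fun hb' x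
  let θ : L →+ Dv E := (Fintype.card H ^ 2) • a' - prinHom.comp (avg (tE s) b)
  have hθ : ∀ x, θ x = (Fintype.card H ^ 2) • a' x - prinHom (avg (tE s) b x) := fun x => rfl
  have hθm : θ ∈ Eqv L (tD s) :=
    sub_mem (nsmul_mem ham _) (comp_mem (t := tE s) prinHom (prin_tE s) (avg_mem (tE s) b))
  have hθf : ∀ x, sD γ (θ x) = θ x := by
    intro x
    rw [← sub_eq_zero]
    change df (sD γ) (θ x) = 0
    have h2 : prinHom ((ε.1 x : UU E) : Additive Eˣ) = 0 := (ε.1 x).2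
    rw [hθ, map_sub, map_nsmul, ← prinHom_df, hbx, map_nsmul, hκ, map_sub, h2, sub_zero, hαx,
      smul_smul, pow_two, sub_self]
  ext x
  obtain ⟨d, hd⟩ := hcl _ hθm (fun x => eqv_cn s hγ hram hθm hθf x) x
  have h5 : (QuotientAddGroup.mk (M • θ x) : DC E) = 0 := by
    rw [QuotientAddGroup.eq_zero_iff, hd]
    exact ⟨_, rfl⟩
  have h6 : (QuotientAddGroup.mk (prinHom (avg (tE s) b x)) : DC E) = 0 := by
    rw [QuotientAddGroup.eq_zero_iff]
    exact ⟨_, rfl⟩
  rw [QuotientAddGroup.mk_nsmul, hθ, QuotientAddGroup.mk_sub, h6, sub_zero,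
    QuotientAddGroup.mk_nsmul, hac, smul_smul, smul_smul] at h5
  change (M * Fintype.card H ^ 3) • c x = 0
  rw [← h5]
  congr 1
  ring

end
end Pool.Agent.H515.EQ
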