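import Pool.Agent.H515.EQ.Alg
import Pool.Agent.H515.Chev

/-! # Equivariant homomorphisms to units -/

set_option autoImplicit false
set_option linter.unusedSectionVars false
set_option linter.deprecated false

namespace Pool.Agent.H515.EQ

open NumberField IsDedekindDomain Pool.Agent.Q5.BR Pool.Agent.Q92.AR Pool.Agent.Q106.AR
open Pool.Agent.Q182.AR (upA nuA upA_injective tr_sE fixed_up resE resE_isRes sE_mul sE_one sD_mul
  sD_one)
open Pool.Agent.H515.CH (UU PP prinHom_sE)

section
variable {K E H L : Type} [Field K] [NumberField K] [Field E] [NumberField E]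
  [Algebra K E] [Group H] [Fintype H] [AddCommGroup L] [DistribMulAction H L]
  (s : H →* (E ≃ₐ[K] E))

/-- the action on `Eˣ` -/
noncomputable def tE : H →* AddMonoid.End (Additive Eˣ) where
  toFun h := sE (s h)
  map_one' := by rw [map_one, sE_one]
  map_mul' a b := by rw [map_mul, sE_mul]

theorem tE_apply (h : H) : tE s h = sE (s h) := rfl

/-- the action on the divisors -/
noncomputable def tD : H →* AddMonoid.End (Dv E) where
  toFun h := sD (s h)
  map_one' := by rw [map_one, sD_one]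
  map_mul' a b := by rw [map_mul, sD_mul]

theorem tD_apply (h : H) : tD s h = sD (s h) := rfl

theorem sE_UU (g : E ≃ₐ[K] E) : ∀ x ∈ UU E, sE g x ∈ UU E := by
  intro x hx
  rw [AddMonoidHom.mem_ker] at hx ⊢
  rw [prinHom_sE, hx, map_zero]

/-- the action on the units -/
noncomputable def tU : H →* AddMonoid.End (UU E) where
  toFun h := resE (sE (s h)) (UU E) (sE_UU _)
  map_one' := by
    refine DFunLike.ext _ _ fun x => Subtype.ext ?_
    rw [resE_isRes]
    change tE s 1 (x : Additive Eˣ) = _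
    rw [map_one]
    rfl
  map_mul' a b := by
    refine DFunLike.ext _ _ fun x => Subtype.ext ?_
    rw [resE_isRes]
    change tE s (a * b) (x : Additive Eˣ) = _
    rw [map_mul]
    rfl

theorem tU_apply (h : H) (x : UU E) : ((tU s h x : UU E) : Additive Eˣ) = sE (s h) x :=
  resE_isRes _ _ (sE_UU (s h)) x

/-- the action on the functions on the infinite places -/
noncomputable def tX : H →* AddMonoid.End (InfinitePlace E → ℤ) where
  toFun h :=
    { toFun := fun a w => a ((s h)⁻¹ • w)
      map_zero' := rfl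
      map_add' := fun _ _ => rfl }
  map_one' := by
    refine DFunLike.ext _ _ fun a => funext fun w => ?_
    change a ((s 1)⁻¹ • w) = a w
    rw [map_one, inv_one, one_smul]
  map_mul' g h := by
    refine DFunLike.ext _ _ fun a => funext fun w => ?_
    change a ((s (g * h))⁻¹ • w) = a ((s h)⁻¹ • (s g)⁻¹ • w)
    rw [map_mul, mul_inv_rev, mul_smul]

theorem tX_apply (h : H) (a : InfinitePlace E → ℤ) (w : InfinitePlace E) :
    tX s h a w = a ((s h)⁻¹ • w) := rfl

theorem fin_UU : Module.Finite ℤ (UU E) := by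
  have hUr : UU E ≤ (Pool.Agent.Q95.AR.iota E).range := by
    intro u hu
    obtain ⟨v, hv⟩ := Pool.Agent.Q95.AR.unit_of_prin u.toMul hu
    exact ⟨Additive.ofMul v, Additive.toMul.injective (Units.ext hv)⟩
  let φ : UU E →+ Additive (𝓞 E)ˣ :=
    (AddMonoidHom.ofInjective (Pool.Agent.Q95.AR.iota_inj (E := E))).symm.toAddMonoidHom.comp
      (AddSubgroup.inclusion hUr)
  have hφ : Function.Injective φ.toIntLinearMap :=
    (AddMonoidHom.ofInjective (Pool.Agent.Q95.AR.iota_inj (E := E))).symm.injective.comp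
      (AddSubgroup.inclusion_injective hUr)
  exact Module.Finite.of_injective φ.toIntLinearMap hφ

/-- the units attached to the places -/
theorem exists_f [IsGalois K E] : ∃ f : (InfinitePlace E → ℤ) →+ UU E,
    (∀ (g : E ≃ₐ[K] E) (a : InfinitePlace E → ℤ),
      ((f (fun w => a (g⁻¹ • w)) : UU E) : Additive Eˣ) = sE g (f a)) ∧
    (∀ a, f a = 0 → (∀ w, 0 < a w) ∨ (∀ w, a w < 0) ∨ ∀ w, a w = 0) ∧
    Finite (UU E ⧸ f.range) := by
  classical
  obtain ⟨ε, hε0, hεg, hεlt⟩ := Pool.Agent.Q150.AR.eps K E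
  let u : InfinitePlace E → UU E := fun w => ⟨Additive.ofMul (ε w), hε0 w⟩
  have hτu : ∀ (g : E ≃ₐ[K] E) w, sE g (u w) = u (g • w) := by
    intro g w
    refine Additive.toMul.injective (Units.ext ?_)
    rw [sE_apply]
    exact (hεg g w).symm
  let f : (InfinitePlace E → ℤ) →+ UU E :=
    ∑ w, ((zmultiplesHom (UU E)) (u w)).comp (Pi.evalAddMonoidHom (fun _ : InfinitePlace E => ℤ) w)
  have hfa : ∀ a, f a = ∑ w, a w • u w := fun a => by
    change (∑ w, ((zmultiplesHom (UU E)) (u w)).comp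
      (Pi.evalAddMonoidHom (fun _ : InfinitePlace E => ℤ) w)) a = _
    rw [AddMonoidHom.finsetSum_apply]
    rfl
  have hf : ∀ (g : E ≃ₐ[K] E) (a : InfinitePlace E → ℤ),
      ((f (fun w => a (g⁻¹ • w)) : UU E) : Additive Eˣ) = sE g (f a) := by
    intro g a
    rw [hfa, hfa, AddSubgroup.val_finsetSum, AddSubgroup.val_finsetSum, map_sum]
    refine Finset.sum_bij' (fun w _ => g⁻¹ • w) (fun w _ => g • w) ?_ ?_ ?_ ?_ ?_
    · intro _ _; exact Finset.mem_univ _
    · intro _ _; exact Finset.mem_univ _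
    · intro w _; exact smul_inv_smul g w
    · intro w _; exact inv_smul_smul g w
    · intro w _
      rw [AddSubgroup.coe_zsmul, AddSubgroup.coe_zsmul, map_zsmul, hτu, smul_inv_smul]
  have hpos : ∀ w w' : InfinitePlace E, 0 < w' (ε w : E) := fun w w' =>
    InfinitePlace.pos_iff.2 (Units.ne_zero _)
  have hker : ∀ a, f a = 0 → (∀ w, 0 < a w) ∨ (∀ w, a w < 0) ∨ ∀ w, a w = 0 := by
    intro a ha
    have h1 : ∀ w' : InfinitePlace E, ∑ w, (a w : ℝ) * Real.log (w' (ε w : E)) = 0 := by
      intro w'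
      have h2 : (Pool.Agent.Q95.AR.lg w') ((f a : UU E) : Additive Eˣ) = 0 := by
        rw [ha]
        exact map_zero _
      rw [hfa, AddSubgroup.val_finsetSum, map_sum] at h2
      have h3 : ∀ w, Pool.Agent.Q95.AR.lg w' ((a w • u w : UU E) : Additive Eˣ)
          = (a w : ℝ) * Real.log (w' (ε w : E)) := by
        intro w
        have h4 : ((a w • u w : UU E) : Additive Eˣ) = a w • Additive.ofMul (ε w) := rfl
        have h5 : Pool.Agent.Q95.AR.lg w' (Additive.ofMul (ε w)) = Real.log (w' (ε w : E)) := rfl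
        rw [h4, map_zsmul, h5, zsmul_eq_mul]
      simp_rw [h3] at h2
      exact h2
    have h6 := Pool.Agent.Q150.AR.mat (InfinitePlace E)
      (fun w w' => (w'.mult : ℝ) * Real.log (w' (ε w : E)))
      (fun w w' hne => mul_neg_of_pos_of_neg (Nat.cast_pos.2 InfinitePlace.mult_pos)
        (Real.log_neg (hpos w w') (hεlt w w' (Ne.symm hne))))
      (fun w => by
        obtain ⟨v, hv⟩ := Pool.Agent.Q95.AR.unit_of_prin (ε w) (hε0 w)
        rw [← hv]
        exact Units.sum_mult_mul_log v)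
      (fun w => (a w : ℝ)) (fun w' => by
        have h7 : ∀ w, (a w : ℝ) * ((w'.mult : ℝ) * Real.log (w' (ε w : E)))
            = (w'.mult : ℝ) * ((a w : ℝ) * Real.log (w' (ε w : E))) := fun w => by ring
        simp_rw [h7]
        rw [← Finset.mul_sum, h1, mul_zero])
    rcases h6 with h | h | h
    · exact Or.inl fun w => Int.cast_pos.1 (h w)
    · exact Or.inr (Or.inl fun w => Int.cast_lt_zero.1 (h w))
    · exact Or.inr (Or.inr fun w => Int.cast_eq_zero.1 (h w))
  exact ⟨f, hf, hker, (Pool.Agent.Q95.AR.ranks (UU E) (fun u hu => hu) f hker).2⟩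

end

section
variable {K F E H L : Type} [Field K] [NumberField K] [Field F] [NumberField F] [Field E]
  [NumberField E] [Algebra K E] [Algebra F E] [Algebra K F] [IsScalarTower K F E]
  [Group H] [Fintype H] [AddCommGroup L] [DistribMulAction H L]
  (s : H →* (E ≃ₐ[K] E))

/-- the automorphism on the units -/
noncomputable abbrev gU (γ : E ≃ₐ[F] E) : AddMonoid.End (UU E) := resE (sE γ) (UU E) (sE_UU γ)

theorem gU_apply (γ : E ≃ₐ[F] E) (x : UU E) : ((gU γ x : UU E) : Additive Eˣ) = sE γ x :=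
  resE_isRes _ _ (sE_UU γ) x

theorem sE_comm {γ : E ≃ₐ[F] E} (hs : ∀ h x, γ (s h x) = s h (γ x)) (h : H) (a : Additive Eˣ) :
    sE γ (tE s h a) = tE s h (sE γ a) := by
  apply Additive.toMul.injective
  apply Units.ext
  exact hs h _

theorem gU_comm {γ : E ≃ₐ[F] E} (hs : ∀ h x, γ (s h x) = s h (γ x)) (h : H) (a : UU E) :
    gU γ (tU s h a) = tU s h (gU γ a) := by
  apply Subtype.ext
  rw [gU_apply, tU_apply, tU_apply, gU_apply]
  exact sE_comm s hs h _

/-- the automorphism on the equivariant homomorphisms to the units -/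
noncomputable def pU (L : Type) [AddCommGroup L] [DistribMulAction H L] (γ : E ≃ₐ[F] E)
    (hs : ∀ h x, γ (s h x) = s h (γ x)) : AddMonoid.End (Eqv L (tU s)) :=
  pc (L := L) (t := tU s) (gU γ) (gU_comm s hs)

/-- **The units have no `Ĥ⁰`** on the part of `L`, if they have no `H¹`. -/
theorem units_h0 [Module.Free ℤ L] [Module.Finite ℤ L] [IsGalois K E] [IsGalois F E]
    (γ : E ≃ₐ[F] E) (hγ : ∀ g : E ≃ₐ[F] E, g ∈ Subgroup.zpowers γ)
    (hs : ∀ h x, γ (s h x) = s h (γ x)) (hR : IsEmpty (RealRam F E))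
    (hn : (Fintype.card H).Coprime (Module.finrank F E))
    (hinv : ∀ l : L →+ ℤ, (∀ (h : H) x, l (h • x) = l x) → l = 0)
    (hU : (tr (pU s L γ hs) (Module.finrank F E)).ker ≤ (df (pU s L γ hs)).range) :
    (df (pU s L γ hs)).ker ≤ (tr (pU s L γ hs) (Module.finrank F E)).range := by
  classical
  obtain ⟨f, hf, hker, hfin⟩ := exists_f (K := K) (E := E)
  have hUfin : Module.Finite ℤ (UU E) := fin_UU
  let β : AddMonoid.End (InfinitePlace E → ℤ) :=
    { toFun := fun a w => a (γ⁻¹ • w)
      map_zero' := rfl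
      map_add' := fun _ _ => rfl }
  obtain ⟨hq1, hq0⟩ := Pool.Agent.Q95.AR.perm_places F E Pool.Agent.Q225.AR.perm γ hγ β
    (fun _ _ => rfl)
  rw [Nat.card_eq_zero.2 (Or.inl hR), pow_zero] at hq0
  have hcard : Nat.card (E ≃ₐ[F] E) = Module.finrank F E := IsGalois.card_aut_eq_finrank F E
  have hγn : γ ^ Module.finrank F E = 1 := by
    have h1 := pow_card_eq_one' (G := E ≃ₐ[F] E) (x := γ)
    rw [hcard] at h1
    exact h1
  have hβk : ∀ (k : ℕ) (a : InfinitePlace E → ℤ) (w : InfinitePlace E),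
      (β ^ k) a w = a ((γ ^ k)⁻¹ • w) := by
    intro k
    induction k with
    | zero =>
      intro a w
      rw [pow_zero, pow_zero, inv_one, one_smul]
      rfl
    | succ k ih =>
      intro a w
      rw [pow_succ]
      change (β ^ k) (β a) w = _
      rw [ih]
      change a (γ⁻¹ • (γ ^ k)⁻¹ • w) = _
      rw [smul_smul, ← mul_inv_rev, ← pow_succ]
  have hplace : ∀ w : InfinitePlace E, γ⁻¹ • w = ((γ.restrictScalars K)⁻¹ : E ≃ₐ[K] E) • w :=
    fun w => rfl
  have hplc : ∀ (h : H) (w : InfinitePlace E), (s h)⁻¹ • γ⁻¹ • w = γ⁻¹ • (s h)⁻¹ • w := by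
    intro h w
    have hc : (γ.restrictScalars K)⁻¹ * (s h)⁻¹ = (s h)⁻¹ * (γ.restrictScalars K)⁻¹ := by
      rw [← mul_inv_rev, ← mul_inv_rev]
      congr 1
      ext x
      exact (hs h x).symm
    rw [hplace, hplace, smul_smul, smul_smul, hc]
  refine herbrand (L := L) (tX := tX s) (tU := tU s) β ?_ (gU γ) (gU_comm s hs)
    (Module.finrank F E) Module.finrank_pos ?_ ?_ hn f ?_ ?_ hfin ?_ ?_ ?_ hU
  · intro h a
    funext w
    change a ((s h)⁻¹ • γ⁻¹ • w) = a (γ⁻¹ • (s h)⁻¹ • w)
    rw [hplc]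
  · refine DFunLike.ext _ _ fun a => funext fun w => ?_
    rw [hβk, hγn, inv_one, one_smul]
    rfl
  · refine DFunLike.ext _ _ fun a => Subtype.ext ?_
    have h1 : ∀ (k : ℕ) (a : UU E), (((gU γ ^ k) a : UU E) : Additive Eˣ) =
        (sE γ ^ k) (a : Additive Eˣ) := by
      intro k
      induction k with
      | zero => intro a; rfl
      | succ k ih =>
        intro a
        rw [pow_succ, pow_succ]
        change (((gU γ ^ k) (gU γ a) : UU E) : Additive Eˣ) = (sE γ ^ k) (sE γ (a : Additive Eˣ))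
        rw [ih, gU_apply]
    rw [h1, Pool.Agent.Q182.AR.sE_pow_finrank]
    rfl
  · intro h a
    apply Subtype.ext
    rw [tU_apply]
    exact hf (s h) a
  · intro a
    apply Subtype.ext
    rw [gU_apply]
    exact hf (γ.restrictScalars K) a
  · intro φ hφ h0
    have hfix : ∀ (h : H) (x : L), φ (h • x) = φ x := by
      intro h x
      have h2 : f (φ (h • x) - φ x) = 0 := by rw [map_sub, h0, h0, sub_zero]
      have h3 : ∑ w, (φ (h • x) - φ x) w = 0 := by
        simp only [Pi.sub_apply, Finset.sum_sub_distrib]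
        rw [hφ h x]
        change ∑ w, φ x ((s h)⁻¹ • w) - ∑ w, φ x w = 0
        have h6 : ∑ w, φ x ((s h)⁻¹ • w) = ∑ w, φ x w :=
          Equiv.sum_comp (MulAction.toPerm ((s h)⁻¹)) (φ x)
        rw [h6, sub_self]
      obtain ⟨w0⟩ : Nonempty (InfinitePlace E) := inferInstance
      rcases hker _ h2 with h4 | h4 | h4
      · have := Finset.sum_pos (fun w _ => h4 w) ⟨w0, Finset.mem_univ w0⟩
        omega
      · have := Finset.sum_neg (fun w _ => h4 w) ⟨w0, Finset.mem_univ w0⟩
        omega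
      · exact sub_eq_zero.1 (funext h4)
    ext x w
    have h5 := hinv ((Pi.evalAddMonoidHom (fun _ : InfinitePlace E => ℤ) w).comp φ) fun h x => by
      change φ (h • x) w = φ x w
      rw [hfix]
    exact DFunLike.congr_fun h5 x
  · exact AddSubgroup.relIndex_eq_one.1 hq0
  · exact AddSubgroup.relIndex_eq_one.1 hq1

end
end Pool.Agent.H515.EQ
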