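import Pool.Agent.H515.EQ.Main
import Pool.Agent.H515.KV.Fix

/-! # Vanishing of the part of a lattice in class groups, part 2 -/

set_option autoImplicit false
set_option linter.unusedSectionVars false
set_option linter.deprecated false

namespace Pool.Agent.H515.EQ

open NumberField IsDedekindDomain Pool.Agent.Q5.BR Pool.Agent.Q92.AR Pool.Agent.Q106.AR
open Pool.Agent.TeamU (act mem_act)
open Pool.Agent.H515.CH (UU PP cn ri DC sb sb_mk sb_le sb_finrank eqv cls dvI_map cls_dvI mr map_ne)

section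
variable {K F E H L : Type} [Field K] [NumberField K] [Field F] [NumberField F] [Field E]
  [NumberField E] [Algebra K E] [Algebra F E] [Algebra K F] [IsScalarTower K F E]
  [Group H] [Fintype H] [AddCommGroup L] [DistribMulAction H L]
  (s : H →* (E ≃ₐ[K] E))

/-- the action on the class group -/
noncomputable def tC : H →* AddMonoid.End (DC E) where
  toFun h := sb (s h)
  map_one' := by
    refine DFunLike.ext _ _ fun x => ?_
    obtain ⟨D, rfl⟩ := QuotientAddGroup.mk_surjective x
    change QuotientAddGroup.mk (tD s 1 D) = _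
    rw [map_one]
    rfl
  map_mul' a b := by
    refine DFunLike.ext _ _ fun x => ?_
    obtain ⟨D, rfl⟩ := QuotientAddGroup.mk_surjective x
    change QuotientAddGroup.mk (tD s (a * b) D) = _
    rw [map_mul]
    rfl

theorem sb_comm {γ : E ≃ₐ[F] E} (hs : ∀ h x, γ (s h x) = s h (γ x)) (h : H) (x : DC E) :
    sb γ (tC s h x) = tC s h (sb γ x) := by
  obtain ⟨D, rfl⟩ := QuotientAddGroup.mk_surjective x
  exact congrArg (QuotientAddGroup.mk : Dv E → DC E) (sD_comm s hs h D)

theorem fin_hom [Module.Finite ℤ L] [Module.Free ℤ L] : Finite (L →+ DC E) := by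
  have h1 : Module.Finite ℤ (DC E) := Module.Finite.of_finite
  have h2 : Module.Finite ℤ (L →+ DC E) := Module.Finite.equiv (addMonoidHomLequivInt ℤ).symm
  have h3 : Module.IsTorsion ℤ (L →+ DC E) := by
    intro c
    refine ⟨⟨(Nat.card (DC E) : ℤ), mem_nonZeroDivisors_of_ne_zero
      (by exact_mod_cast Nat.card_pos.ne')⟩, ?_⟩
    ext x
    change (Nat.card (DC E) : ℤ) • c x = 0
    rw [natCast_zsmul]
    exact card_nsmul_eq_zero'
  exact Module.finite_of_fg_torsion _ h3

/-- **Vanishing.** -/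
theorem vanish [Module.Free ℤ L] [Module.Finite ℤ L] [IsGalois K E] [IsGalois F E]
    (γ : E ≃ₐ[F] E) (hγ : ∀ g : E ≃ₐ[F] E, g ∈ Subgroup.zpowers γ)
    (hs : ∀ h x, γ (s h x) = s h (γ x)) (hR : IsEmpty (RealRam F E))
    {p m : ℕ} (hp : p.Prime) (hm : Module.finrank F E = p ^ m)
    (hn : (Fintype.card H).Coprime p) {M : ℕ} (hh : M.Coprime p) (hcl : ClsHyp s F L M)
    (hinv : ∀ l : L →+ ℤ, (∀ (h : H) x, l (h • x) = l x) → l = 0) (hram : RamHyp s F L)
    (c : L →+ DC E) (hc : ∀ h x, c (h • x) = sb (s h) (c x)) (x : L)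
    (hx : ∃ k, p ^ k • c x = 0) : c x = 0 := by
  classical
  have hfp : Fact p.Prime := ⟨hp⟩
  have hfin : Finite (L →+ DC E) := fin_hom
  have hnm : (Fintype.card H).Coprime (Module.finrank F E) := by
    rw [hm]; exact Nat.Coprime.pow_right _ hn
  have hhm : M.Coprime (Module.finrank F E) := by
    rw [hm]; exact Nat.Coprime.pow_right _ hh
  obtain ⟨X, hX⟩ : ∃ X, X = Eqv L (tC s) := ⟨_, rfl⟩
  have hstab : ∀ φ ∈ X, (sb γ).comp φ ∈ X := by
    intro φ hφ
    rw [hX] at hφ ⊢
    exact comp_mem (t := tC s) (sb γ) (sb_comm s hs) hφ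
  let σ : (L →+ DC E) →+ (L →+ DC E) :=
    { toFun := fun φ => (sb γ).comp φ
      map_zero' := by
        ext x
        change sb γ 0 = 0
        rw [map_zero]
      map_add' := fun a b => by
        ext x
        change sb γ (a x + b x) = sb γ (a x) + sb γ (b x)
        rw [map_add] }
  have hσi : ∀ (n : ℕ) (φ : L →+ DC E) (x : L), (σ^[n] φ) x = (sb γ)^[n] (φ x) := by
    intro n
    induction n with
    | zero => intro φ x; rfl
    | succ n ih =>
      intro φ x
      rw [Function.iterate_succ_apply, Function.iterate_succ_apply, ih]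
      rfl
  have key : ¬ p ∣ Nat.card X := by
    intro hd
    have h1 := Pool.Agent.H515.CH.dvd_fixed (p := p) σ (s := m) (fun φ => by
      ext x
      rw [hσi, ← hm]
      exact sb_finrank γ _) X (fun φ hφ => hstab φ hφ) hd
    obtain ⟨c0, hc0⟩ := exists_prime_addOrderOf_dvd_card' p h1
    obtain ⟨hc1, hc2⟩ := c0.2
    have hc1' : c0.1 ∈ Eqv L (tC s) := hX ▸ hc1
    have hc3 : ∀ x, sb γ (c0.1 x) = c0.1 x := by
      intro x
      have h2 : σ c0.1 - c0.1 = 0 := hc2
      have h3 := DFunLike.congr_fun h2 x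
      exact sub_eq_zero.1 h3
    have h4 := inv_zero s γ hγ hs hR hnm hhm hcl hinv hram c0.1 hc1' hc3
    have h5 : p • c0.1 = 0 := by
      have h6 := addOrderOf_nsmul_eq_zero c0
      rw [hc0] at h6
      exact congrArg Subtype.val h6
    have hcop : (M * Fintype.card H ^ 3).Coprime p :=
      Nat.Coprime.mul_left hh (Nat.Coprime.pow_left _ hn)
    have h6 : c0.1 ∈ (⊥ : AddSubgroup (L →+ DC E)) :=
      mem_of_coprime hcop (by rw [h4]; exact zero_mem _) (by rw [h5]; exact zero_mem _)
    have h7 : c0 = 0 := Subtype.ext h6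
    rw [h7, addOrderOf_zero] at hc0
    exact hp.one_lt.ne hc0
  obtain ⟨k, hk⟩ := hx
  have hcX : c ∈ X := by
    rw [hX]
    exact hc
  have h1 : Nat.card X • (⟨c, hcX⟩ : X) = 0 := card_nsmul_eq_zero'
  have h2 : Nat.card X • c x = 0 := by
    have h3 := congrArg Subtype.val h1
    exact DFunLike.congr_fun h3 x
  have hcop : (Nat.card X).Coprime (p ^ k) :=
    Nat.Coprime.pow_right _ ((Nat.Prime.coprime_iff_not_dvd hp).2 key).symm
  exact mem_of_coprime (S := ⊥) hcop (by rw [h2]; exact zero_mem _) (by rw [hk]; exact zero_mem _)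

end
end Pool.Agent.H515.EQ
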